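import Pool.Agent.Run7.h26.CN.Gf

/-!
The recursion for the limits and their leading terms (after `Y699/Lam` and `Y699/Nv`).
-/

set_option autoImplicit false
set_option linter.unusedSectionVars false

open Filter Complex
open scoped Topology PeriodPair
open H667R3 hiding sq
open Pool.Agent.TH936.CM Pool.Agent.W192.HK

namespace Run7.h26.CN

open Pool.Agent.Y699
open H385 (ZI RQ im1 nrm)
open Pool.Agent.H304R3.HK (tc)
open Pool.Agent.W164.RC (tc_mul tc_star two2 prim_iff_dvd)
open Pool.Agent.H304R2.EC.A1 (prim prim_mul prim_cancel prim_one prim_norm_odd prim_star eq_one_of_prim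
  norm_def' re_mul' im_mul' eq_of_dvd prim_ne_zero)

variable {L : PeriodPair} {Ω : ℂ} {ι : Type} [DecidableEq ι] {pr : ι → ZI}

/-- the combination of values -/
noncomputable def QT (L : PeriodPair) (Ω : ℂ) (pr : ι → ZI) (V : Finset ι)
    [Fintype (RQ (DD pr V))] : ℂ :=
  ∑ q : RQ (DD pr V), C1 pr V q.out * Gt L Ω (Ω * tc 1 / 4 + zq Ω (DD pr V) q.out)

lemma add_dz (D t : ZI) : Ω * tc 1 / 4 + zq Ω D t + dz Ω = Ω * tc ⟨2, -1⟩ / 4 + zq Ω D t := by
  rw [dz_four]
  unfold tc
  push_cast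
  simp
  ring

lemma add_two_dz (D t : ZI) : Ω * tc 1 / 4 + zq Ω D t + 2 * dz Ω = Ω * tc ⟨3, -2⟩ / 4 + zq Ω D t := by
  rw [dz_four]
  unfold tc
  push_cast
  simp
  ring

lemma add_tau (D t : ZI) : Ω * tc 1 / 4 + zq Ω D t + (1 + I) * Ω / 2 =
    Ω * tc c5 / 4 + zq Ω D t := by
  unfold tc c5
  push_cast
  simp
  ring

theorem lim_kt (h : GLat L Ω) (hp : PF pr) (V : Finset ι) [Fintype (RQ (DD pr V))] :
    Tendsto (RS (kt pr V)) (𝓝[>] 0)
      (𝓝 ((th (DD pr V) : ℂ) * (Ω / (tc (DD pr V) * 4) * QT L Ω pr V))) := by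
  have hD := DD_prim hp V
  have hDc := tc_ne (prim_ne_zero hD)
  have hΩ := h.lat.ne
  have hc : 0 < Complex.normSq (tc (DD pr V) * 4 / Ω) :=
    Complex.normSq_pos.2 (div_ne_zero (mul_ne_zero hDc (by norm_num)) hΩ)
  have key : Tendsto (fun δ : ℝ => ∑ q : RQ (DD pr V), C1 pr V q.out *
      (EG Ω δ (Ω * tc 1 / 4 + zq Ω (DD pr V) q.out) - EG Ω δ (Ω * tc c5 / 4 + zq Ω (DD pr V) q.out)))
      (𝓝[>] 0) (𝓝 (QT L Ω pr V)) := by
    unfold QT
    refine tendsto_finsetSum _ fun q _ => Tendsto.const_mul _ ?_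
    have h1 := lim_Gt h (z := Ω * tc 1 / 4 + zq Ω (DD pr V) q.out)
      (nm4 h hD (by decide) _)
      (by rw [add_dz]; exact nm4 h hD (by decide) _)
      (by rw [add_two_dz]; exact nm4 h hD (by decide) _)
    rw [add_tau] at h1
    exact h1
  have key2 := ((tendsto_scale key hc).const_mul (Ω / (tc (DD pr V) * 4))).const_mul
    (th (DD pr V) : ℂ)
  refine key2.congr' ?_
  filter_upwards [self_mem_nhdsWithin] with δ (hδ : 0 < δ)
  rw [RS_kt h.lat hp V hδ, RU_eq h.lat hp V 1 hδ, RU_eq h.lat hp V c5 hδ, ← mul_sub,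
    ← Finset.sum_sub_distrib]
  simp_rw [mul_sub]

lemma RS_sum_ct (h : GLat L Ω) (V : Finset ι) {δ : ℝ} (hδ : 0 < δ) :
    ∑ S ∈ V.powerset, RS (ct pr S (V \ S)) δ = 2 ^ V.card * RS (kt pr V) δ := by
  unfold RS
  simp_rw [← tsum_mul_left]
  rw [← Summable.tsum_finsetSum]
  · refine tsum_congr fun a => ?_
    rw [← mul_assoc, ← sum_ct V a, Finset.sum_mul]
  · intro S _
    exact summ_bd h.lat hδ (ct_bd S (V \ S))

/-- existence of the limits -/
theorem exists_lim_ct (h : GLat L Ω) (hp : PF pr) : ∀ S : Finset ι, ∃ l : ℂ,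
    Tendsto (RS (ct pr S ∅)) (𝓝[>] 0) (𝓝 l) := by
  intro S
  induction S using Finset.strongInduction with
  | H V ih =>
    have hfin := H385.he1_finite (DD_ne hp V)
    letI := Fintype.ofFinite (RQ (DD pr V))
    have h1 := lim_kt h hp V
    have h2 : ∀ S : Finset ι, ∃ l : ℂ, S ∈ V.powerset.erase V →
        Tendsto (RS (ct pr S (V \ S))) (𝓝[>] 0) (𝓝 l) := by
      intro S
      by_cases hS : S ∈ V.powerset.erase V
      · rw [Finset.mem_erase, Finset.mem_powerset] at hS
        obtain ⟨l, hl⟩ := ih S (Finset.ssubset_iff_subset_ne.2 ⟨hS.2, hS.1⟩)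
        exact ⟨_, fun _ => lim_ct h.lat hp S hl (V \ S)⟩
      · exact ⟨0, fun h' => absurd h' hS⟩
    choose l hl using h2
    have h3 : Tendsto (fun δ => 2 ^ V.card * RS (kt pr V) δ -
        ∑ S ∈ V.powerset.erase V, RS (ct pr S (V \ S)) δ) (𝓝[>] 0)
        (𝓝 (2 ^ V.card * ((th (DD pr V) : ℂ) * (Ω / (tc (DD pr V) * 4) * QT L Ω pr V)) -
        ∑ S ∈ V.powerset.erase V, l S)) := by
      refine (h1.const_mul _).sub (tendsto_finsetSum _ fun S hS => ?_)
      exact hl S hS
    refine ⟨_, h3.congr' ?_⟩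
    filter_upwards [self_mem_nhdsWithin] with δ (hδ : 0 < δ)
    rw [← RS_sum_ct h V hδ, ← Finset.add_sum_erase V.powerset _ (Finset.mem_powerset_self V),
      add_sub_cancel_right, Finset.sdiff_self]

/-- the normalized limit -/
noncomputable def Mt (Ω : ℂ) (pr : ι → ZI) (l : Finset ι → ℂ) (S : Finset ι) : ℂ :=
  4 * (l S / Ω) * tc (DD pr S) / 2 ^ S.card

/-- the recursion -/
theorem recur_ct (h : GLat L Ω) (hp : PF pr) {l : Finset ι → ℂ}
    (hl : ∀ S, Tendsto (RS (ct pr S ∅)) (𝓝[>] 0) (𝓝 (l S))) (V : Finset ι)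
    [Fintype (RQ (DD pr V))] :
    ∑ S ∈ V.powerset, Mt Ω pr l S *
      ∏ i ∈ V \ S, ((tc (pr i) - (th (pr i) : ℂ) * ch pr S (pr i)) / 2) =
      (th (DD pr V) : ℂ) * QT L Ω pr V := by
  have hDc := tc_ne (DD_ne hp V)
  have hΩ := h.lat.ne
  have h1 : Tendsto (fun δ => ∑ S ∈ V.powerset, RS (ct pr S (V \ S)) δ)
      (𝓝[>] 0) (𝓝 (∑ S ∈ V.powerset,
        (l S * ∏ i ∈ V \ S, (1 - (th (pr i) : ℂ) * (ch pr S (pr i) : ℂ) / tc (pr i))))) := by
    refine tendsto_finsetSum _ fun S _ => ?_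
    exact lim_ct h.lat hp S (hl S) (V \ S)
  have h2 : Tendsto (fun δ => ∑ S ∈ V.powerset, RS (ct pr S (V \ S)) δ)
      (𝓝[>] 0) (𝓝 (2 ^ V.card * ((th (DD pr V) : ℂ) * (Ω / (tc (DD pr V) * 4) * QT L Ω pr V)))) := by
    refine ((lim_kt h hp V).const_mul (2 ^ V.card)).congr' ?_
    filter_upwards [self_mem_nhdsWithin] with δ (hδ : 0 < δ)
    exact (RS_sum_ct h V hδ).symm
  have h3 := tendsto_nhds_unique h1 h2
  have h4 : (th (DD pr V) : ℂ) * QT L Ω pr V = (tc (DD pr V) * 4 / Ω / 2 ^ V.card) *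
      (2 ^ V.card * ((th (DD pr V) : ℂ) * (Ω / (tc (DD pr V) * 4) * QT L Ω pr V))) := by
    field_simp
  rw [h4, ← h3, Finset.mul_sum]
  refine Finset.sum_congr rfl fun S hS => ?_
  rw [Finset.mem_powerset] at hS
  unfold Mt
  have h5 : tc (DD pr V) = tc (DD pr S) * ∏ i ∈ V \ S, tc (pr i) := by
    unfold DD
    rw [← tc_prod, ← tc_mul]
    congr 1
    rw [mul_comm]
    exact (Finset.prod_sdiff hS).symm
  have h6 : V.card = S.card + (V \ S).card := by
    have := Finset.card_sdiff_add_card_eq_card hS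
    omega
  have h7 : ∏ i ∈ V \ S, ((tc (pr i) - (th (pr i) : ℂ) * ch pr S (pr i)) / 2) =
      (∏ i ∈ V \ S, tc (pr i)) / 2 ^ (V \ S).card *
        ∏ i ∈ V \ S, (1 - (th (pr i) : ℂ) * (ch pr S (pr i) : ℂ) / tc (pr i)) := by
    rw [← Finset.prod_const, ← Finset.prod_div_distrib, ← Finset.prod_mul_distrib]
    refine Finset.prod_congr rfl fun i _ => ?_
    have := tc_ne (hp.pp i).ne
    field_simp
  rw [h5, h6, h7, pow_add]
  ring

/-! ### the leading term -/

variable [Fintype ι]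

/-- the weights as symbols of a vertex `none` -/
noncomputable def eo (pr : ι → ZI) : Option ι → Option ι → ZMod 2
  | none, none => 0
  | none, some v => wt pr v
  | some u, none => wt pr u
  | some u, some v => em pr u v

lemma eo_self (hp : PF pr) (u : Option ι) : eo pr u u = 0 := by
  cases u with
  | none => rfl
  | some u => exact em_self hp u

lemma eo_symm (hp : PF pr) (u v : Option ι) : eo pr u v = eo pr v u := by
  cases u with
  | none => cases v <;> rfl
  | some u =>
    cases v with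
    | none => rfl
    | some v => exact em_symm hp u v

/-- the number of the spanning trees modulo two -/
noncomputable def tr (pr : ι → ZI) (S : Finset ι) : ZMod 2 :=
  Ff.tau (eo pr) none (Finset.insertNone S)

lemma insertNone_sdiff (V S : Finset ι) :
    Finset.insertNone V \ Finset.insertNone S = (V \ S).map Function.Embedding.some := by
  ext x
  cases x with
  | none => simp
  | some x => simp

lemma tr_empty : tr pr (∅ : Finset ι) = 1 := by
  unfold tr Ff.tau
  have h0 : (Finset.insertNone (∅ : Finset ι)).erase none = ∅ := by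
    ext x
    cases x with
    | none => simp
    | some x => simp
  rw [h0]
  have h1 : Ff.MM (eo pr none) (eo pr) ∅ ∅ = 1 := by
    ext i j
    unfold Ff.MM
    simp [Matrix.one_apply]
  rw [h1, Matrix.det_one]

theorem sum_tr (hp : PF pr) {V : Finset ι} (hV : V.Nonempty) :
    ∑ S ∈ V.powerset, tr pr S * ∏ v ∈ V \ S, (wt pr v + ∑ u ∈ S, em pr u v) = 0 := by
  have h1 := Ff.sum_tau (eo pr) (eo_self hp) (r := none) (V := Finset.insertNone V)
    (Finset.none_mem_insertNone) (by
      rw [Finset.card_insertNone]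
      have := hV.card_pos
      omega)
  rw [← h1]
  refine Finset.sum_bij' (i := fun S _ => Finset.insertNone S) (j := fun S _ => Finset.eraseNone S)
    ?_ ?_ ?_ ?_ ?_
  · intro S hS
    rw [Finset.mem_powerset] at hS
    rw [Finset.mem_filter, Finset.mem_powerset]
    refine ⟨?_, Finset.none_mem_insertNone⟩
    intro x hx
    cases x with
    | none => exact Finset.none_mem_insertNone
    | some x =>
      rw [Finset.some_mem_insertNone] at hx ⊢
      exact hS hx
  · intro S hS
    rw [Finset.mem_filter, Finset.mem_powerset] at hS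
    rw [Finset.mem_powerset]
    intro x hx
    rw [Finset.mem_eraseNone] at hx
    have := hS.1 hx
    rwa [Finset.some_mem_insertNone] at this
  · intro S _
    exact Finset.eraseNone_insertNone S
  · intro S hS
    rw [Finset.mem_filter] at hS
    rw [Finset.insertNone_eraseNone, Finset.insert_eq_of_mem hS.2]
  · intro S hS
    unfold tr
    congr 1
    rw [insertNone_sdiff, Finset.prod_map]
    refine Finset.prod_congr rfl fun v _ => ?_
    rw [Finset.sum_insertNone]
    rfl

theorem tr_one (hp : PF pr) {V : Finset ι}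
    (hker : ∀ z : ι → ZMod 2, (∀ v ∈ V, ∑ u ∈ V, em pr u v * (z u + z v) + wt pr v * z v = 0) →
      ∀ v ∈ V, z v = 0) : tr pr V = 1 := by
  unfold tr
  refine Ff.tau_one (eo pr) (eo_self hp) (eo_symm hp) ?_ Finset.none_mem_insertNone
  intro z hz
  have hk := hker (fun i => z (some i) + z none) (fun v hv => by
    have h1 := hz (some v) (Finset.some_mem_insertNone.2 hv)
    rw [Finset.sum_insertNone] at h1
    have h2 : ∑ u ∈ V, em pr u v * (z (some u) + z none + (z (some v) + z none)) =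
        ∑ u ∈ V, em pr u v * (z (some u) + z (some v)) := by
      refine Finset.sum_congr rfl fun u _ => ?_
      have h3 : z none + z none = 0 := CharTwo.add_self_eq_zero _
      have e : z (some u) + z none + (z (some v) + z none) =
        z (some u) + z (some v) + (z none + z none) := by ring
      rw [e, h3, add_zero]
    rw [h2, ← h1]
    have e1 : eo pr none (some v) = wt pr v := rfl
    have e2 : ∀ u, eo pr (some u) (some v) = em pr u v := fun _ => rfl
    rw [e1]
    simp_rw [e2]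
    ring)
  have hz0 : ∀ u ∈ Finset.insertNone V, z u = z none := by
    intro u hu
    cases u with
    | none => rfl
    | some u =>
      have := hk u (Finset.some_mem_insertNone.1 hu)
      exact CharTwo.add_eq_zero.1 this
  intro u hu v hv
  rw [hz0 u hu, hz0 v hv]

section val

variable {Γ : Type*} [LinearOrderedCommGroupWithZero Γ] {v : Valuation ℂ Γ} (h2 : v 2 < 1)
  (h : GLat L Ω)

lemma Cg_int {x y : ℂ} (h : Cg v x y) {c : ℂ} (hc : c = 1 ∨ c = -1) (h2 : v 2 < 1) (hy : y = 0 ∨ y = 1) :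
    Cg v (c * x) y := by
  rcases hc with rfl | rfl
  · rwa [one_mul]
  · rw [neg_one_mul]
    have hone : v (1 : ℂ) ≤ 1 := by rw [map_one]
    have h3 : Cg v (-y) y := by
      rcases hy with rfl | rfl
      · rw [neg_zero]; exact Cg.refl (by rw [map_zero]; exact zero_le)
      · exact ⟨by rw [Valuation.map_neg, map_one], hone, by
          have : (-1 - 1 : ℂ) = -2 := by norm_num
          rw [this, Valuation.map_neg]; exact h2⟩
    exact h.neg.trans h3

include h2 in
lemma half_cg {i : ι} (hp : PF pr) {S : Finset ι} (hi : i ∉ S) :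
    Cg v ((tc (pr i) - (th (pr i) : ℂ) * ch pr S (pr i)) / 2) (uu (wt pr i + ∑ u ∈ S, em pr u i)) := by
  have h1 : Cg v ((tc (pr i) - 1) / 2) 0 :=
    Cg.zero (lt_of_le_of_lt (half_le h2 (hp.pp i).prm) (v_pi_lt h2))
  have hch := ch_em hp hi
  have h8 := odd_norm8 (prim_norm_odd (hp.pp i).prm)
  set x := ∑ u ∈ S, em pr u i with hx
  rcases h8 with h8 | h8
  · have e1 : th (pr i) = 1 := by unfold th; rw [if_pos h8]
    have e2 : wt pr i = 0 := by unfold wt; rw [if_neg (by omega)]
    have e : (tc (pr i) - (th (pr i) : ℂ) * ch pr S (pr i)) / 2 = (tc (pr i) - 1) / 2 +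
      ((1 : ℂ) - ch pr S (pr i)) / 2 := by rw [e1]; push_cast; ring
    rw [e, e2, zero_add, hch]
    have h3 := h1.add (Cg.refl (v := v) (v_uu x))
    rwa [zero_add] at h3
  · have e1 : th (pr i) = -1 := by unfold th; rw [if_neg (by omega)]
    have e2 : wt pr i = 1 := by unfold wt; rw [if_pos (by omega)]
    have e : (tc (pr i) - (th (pr i) : ℂ) * ch pr S (pr i)) / 2 = ((tc (pr i) - 1) / 2 + 1) -
      ((1 : ℂ) - ch pr S (pr i)) / 2 := by rw [e1]; push_cast; ring
    rw [e, e2, hch]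
    have hone : v (1 : ℂ) ≤ 1 := by rw [map_one]
    have h3 := (h1.add (Cg.refl (v := v) hone)).sub (Cg.refl (v := v) (v_uu x))
    rw [zero_add] at h3
    refine h3.trans ?_
    have h4 : ∀ y : ZMod 2, y = 0 ∨ y = 1 := by decide
    rcases h4 x with h5 | h5 <;> rw [h5]
    · rw [uu_zero, sub_zero, add_zero, uu_one]; exact Cg.refl hone
    · have : (1 : ZMod 2) + 1 = 0 := by decide
      rw [this, uu_zero, uu_one, sub_self]; exact Cg.refl (by rw [map_zero]; exact zero_le)

include h2 in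
lemma C1_sum (hp : PF pr) {V : Finset ι} (hV : V.Nonempty) [Fintype (RQ (DD pr V))] :
    v (∑ q : RQ (DD pr V), C1 pr V q.out) < 1 := by
  classical
  have hC : ∀ q : RQ (DD pr V), C1 pr V (-q).out = C1 pr V q.out := by
    intro q
    rw [C1_per (out_neg _ q), C1_neg hp]
  have hneq : ∀ q : RQ (DD pr V), C1 pr V q.out ≠ 0 → -q ≠ q := by
    intro q hq hqq
    have h3 := (C1_cases V q.out).resolve_left hq
    obtain ⟨i, hi⟩ := hV
    have h4 : (2 : RQ (DD pr V)) * q = 0 := by
      rw [two_mul]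
      nth_rw 1 [← hqq]
      exact neg_add_cancel q
    have h5 : DD pr V ∣ 2 * q.out := by
      have : Ideal.Quotient.mk (Ideal.span {DD pr V}) (2 * q.out) = 0 := by
        rw [map_mul, Ideal.Quotient.mk_out]
        exact h4
      rwa [Ideal.Quotient.eq_zero_iff_mem, Ideal.mem_span_singleton] at this
    rcases (hp.pp i).pr.dvd_or_dvd ((dvd_DD hi).trans h5) with h6 | h6
    · exact not_dvd_two (hp.pp i) h6
    · have h7 := qr_zero_iff.2 h6
      rw [h3.2 i hi] at h7
      exact one_ne_zero h7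
  have hle : ∀ q : RQ (DD pr V), v (C1 pr V q.out) ≤ 1 := by
    intro q
    rcases C1_cases V q.out with h3 | ⟨h3, -⟩
    · rw [h3, map_zero]; exact zero_le
    · rw [h3, map_one]
  have b2 : v (∑ q : RQ (DD pr V), C1 pr V q.out) ≤ v 2 * 1 :=
    pair_sum h2 (fun q : RQ (DD pr V) => -q) (fun q => neg_neg q)
      (fun q : RQ (DD pr V) => C1 pr V q.out) hC hneq 1 hle Finset.univ
      (fun q _ => Finset.mem_univ _)
  rw [mul_one] at b2
  exact lt_of_le_of_lt b2 h2

include h2 h in
lemma QT_cg (hp : PF pr) {V : Finset ι} (hV : V.Nonempty) [Fintype (RQ (DD pr V))] :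
    Cg v (QT L Ω pr V / kp L Ω) 0 := by
  have hD := DD_prim hp V
  have h3 : Cg v (∑ q : RQ (DD pr V), C1 pr V q.out *
      (Gt L Ω (Ω * tc 1 / 4 + zq Ω (DD pr V) q.out) / kp L Ω))
      (∑ q : RQ (DD pr V), C1 pr V q.out) := by
    refine Cg.sum (Finset.univ : Finset (RQ (DD pr V))) fun q _ => ?_
    rcases C1_cases V q.out with h3 | ⟨h3, h4⟩
    · rw [h3, zero_mul]
      exact Cg.refl (by rw [map_zero]; exact zero_le)
    · rw [h3, one_mul]
      have hO := zq_OT h hD (not_dvd_of_C1 hV h4)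
      refine Gt_cg h2 h ?_
      rw [add_dz]
      exact diff_OT h2 h hO _
  have h4 : Cg v (∑ q : RQ (DD pr V), C1 pr V q.out) 0 := Cg.zero (C1_sum h2 hp hV)
  have e : QT L Ω pr V / kp L Ω = ∑ q : RQ (DD pr V), C1 pr V q.out *
      (Gt L Ω (Ω * tc 1 / 4 + zq Ω (DD pr V) q.out) / kp L Ω) := by
    unfold QT
    rw [Finset.sum_div]
    refine Finset.sum_congr rfl fun q _ => ?_
    rw [mul_div_assoc]
  rw [e]
  exact h3.trans h4

include h2 h in
lemma QT_empty (hp : PF pr) [Fintype (RQ (DD pr (∅ : Finset ι)))] :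
    Cg v (QT L Ω pr ∅ / kp L Ω) 1 := by
  have hD1 : DD pr (∅ : Finset ι) = 1 := Finset.prod_empty
  have hsub : Subsingleton (RQ (DD pr (∅ : Finset ι))) := by
    rw [Ideal.Quotient.subsingleton_iff, hD1]
    exact Ideal.span_singleton_one
  have hcard : (Finset.univ : Finset (RQ (DD pr (∅ : Finset ι)))) = {0} := by
    ext x
    simp [Subsingleton.elim x 0]
  have e1 : C1 pr (∅ : Finset ι) (0 : RQ (DD pr (∅ : Finset ι))).out = 1 := by
    unfold C1
    simp
  unfold QT
  rw [hcard, Finset.sum_singleton, e1, one_mul]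
  refine Gt_cg h2 h ?_
  rw [add_dz]
  refine diff_four h2 h ?_
  refine (mem_lat h.lat).2 ⟨(0 : RQ (DD pr (∅ : Finset ι))).out, ?_⟩
  unfold zq
  rw [hD1, tc_one, div_one]

include h2 h in
/-- **the leading term** -/
theorem Mt_cg (hp : PF pr) {l : Finset ι → ℂ}
    (hl : ∀ S, Tendsto (RS (ct pr S ∅)) (𝓝[>] 0) (𝓝 (l S))) (V : Finset ι) :
    Cg v (Mt Ω pr l V / kp L Ω) (uu (tr pr V)) := by
  have hk := kp_ne h2 h
  induction V using Finset.strongInduction with
  | H V ih =>
    have hfin := H385.he1_finite (DD_ne hp V)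
    let _ := Fintype.ofFinite (RQ (DD pr V))
    have hrec := recur_ct h hp hl V
    rw [← Finset.add_sum_erase V.powerset _ (Finset.mem_powerset_self V), Finset.sdiff_self,
      Finset.prod_empty, mul_one] at hrec
    have hMV : Mt Ω pr l V / kp L Ω = (th (DD pr V) : ℂ) * (QT L Ω pr V / kp L Ω) -
        ∑ S ∈ V.powerset.erase V, (Mt Ω pr l S / kp L Ω) *
          ∏ i ∈ V \ S, ((tc (pr i) - (th (pr i) : ℂ) * ch pr S (pr i)) / 2) := by
      have e : ∀ S, (Mt Ω pr l S / kp L Ω) *
          ∏ i ∈ V \ S, ((tc (pr i) - (th (pr i) : ℂ) * ch pr S (pr i)) / 2) =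
          (Mt Ω pr l S * ∏ i ∈ V \ S, ((tc (pr i) - (th (pr i) : ℂ) * ch pr S (pr i)) / 2)) /
            kp L Ω := by
        intro S; ring
      simp_rw [e]
      rw [← Finset.sum_div, ← mul_div_assoc, ← hrec]
      ring
    have hth : ((th (DD pr V) : ℤ) : ℂ) = 1 ∨ ((th (DD pr V) : ℤ) : ℂ) = -1 := by
      rcases th_cases (DD pr V) with h3 | h3 <;> rw [h3]
      · left; norm_num
      · right; norm_num
    rcases V.eq_empty_or_nonempty with rfl | hV
    · have h3 : (∅ : Finset ι).powerset.erase ∅ = ∅ := by simp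
      rw [hMV, h3, Finset.sum_empty, sub_zero, tr_empty, uu_one]
      exact Cg_int (QT_empty h2 h hp) hth h2 (Or.inr rfl)
    · have hQ := Cg_int (QT_cg h2 h hp hV) hth h2 (Or.inl rfl)
      have hterm : ∀ S ∈ V.powerset.erase V,
          Cg v ((Mt Ω pr l S / kp L Ω) *
            ∏ i ∈ V \ S, ((tc (pr i) - (th (pr i) : ℂ) * ch pr S (pr i)) / 2))
            (uu (tr pr S * ∏ i ∈ V \ S, (wt pr i + ∑ u ∈ S, em pr u i))) := by
        intro S hS
        rw [Finset.mem_erase, Finset.mem_powerset] at hS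
        rw [uu_mul, uu_prod]
        refine (ih S (Finset.ssubset_iff_subset_ne.2 ⟨hS.2, hS.1⟩)).mul
          (Cg.prod _ fun i hi => half_cg h2 hp (Finset.mem_sdiff.1 hi).2)
      have hsum := Cg.sum _ hterm
      have h3 := (uu_sum h2 (V.powerset.erase V) (fun S =>
        tr pr S * ∏ i ∈ V \ S, (wt pr i + ∑ u ∈ S, em pr u i))).symm
      have h4 : ∑ S ∈ V.powerset.erase V,
          tr pr S * ∏ i ∈ V \ S, (wt pr i + ∑ u ∈ S, em pr u i) = tr pr V := by
        have h5 := sum_tr hp hV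
        rw [← Finset.add_sum_erase V.powerset _ (Finset.mem_powerset_self V), Finset.sdiff_self,
          Finset.prod_empty, mul_one] at h5
        have h6 : ∀ a b : ZMod 2, a + b = 0 → b = a := by decide
        exact h6 _ _ h5
      rw [h4] at h3
      rw [hMV]
      have h5 := hQ.sub (hsum.trans h3)
      rw [zero_sub] at h5
      exact h5.trans (uu_neg h2 _)

end val

/-- **non-vanishing** -/
theorem lim_ct_ne (h : GLat L Ω) (hp : PF pr) {V : Finset ι}
    (hker : ∀ z : ι → ZMod 2, (∀ v ∈ V, ∑ u ∈ V, em pr u v * (z u + z v) + wt pr v * z v = 0) →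
      ∀ v ∈ V, z v = 0) {l : ℂ}
    (hl : Tendsto (RS (ct pr V ∅)) (𝓝[>] 0) (𝓝 l)) : l ≠ 0 := by
  obtain ⟨B, h2⟩ := exists_val
  choose f hf using exists_lim_ct (ι := ι) h hp
  have h3 := Mt_cg h2 h hp hf V
  rw [tr_one hp hker, uu_one] at h3
  have h4 : f V = l := tendsto_nhds_unique (hf V) hl
  rintro rfl
  have h5 : Mt Ω pr f V = 0 := by
    unfold Mt
    rw [h4]
    simp
  rw [h5, zero_div] at h3
  have h6 := h3.s
  rw [zero_sub, Valuation.map_neg, map_one] at h6
  exact lt_irrefl _ h6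

end Run7.h26.CN
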