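import Pool.Agent.Y699.Cen
import Pool.Agent.Run7.h26.CN.Rn

/-!
The Hecke character with the symbol of `i`, and its central value (after `Y699/Chi` and `Y699/Cen`).
-/

set_option autoImplicit false
set_option linter.unusedSectionVars false

open Filter Complex MeasureTheory Set
open scoped Topology PeriodPair
open Pool.Agent.TH936.CM

namespace Run7.h26.CN

open Pool.Agent.Y699
open H385 (ZI RQ im1 nrm)
open Pool.Agent.H304R3.HK (tc HC LH bH TH FF Th th_psi chi_le)
open Pool.Agent.W164.RC (tc_mul tc_star two2 prim_iff_dvd unit_norm unit_cases)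
open Pool.Agent.H304R2.EC.A1 (prim prim_mul prim_cancel prim_one prim_norm_odd prim_star eq_one_of_prim
  norm_def' re_mul' im_mul' eq_of_dvd prim_ne_zero exists_prim)

variable {ι : Type} [DecidableEq ι] {pr : ι → ZI}

lemma XX_odd (hp : PF pr) (V : Finset ι) {a : ZI} (h : XX hp V a ≠ 0) : a.norm % 2 = 1 := by
  by_contra hc
  apply h
  rw [XX_apply, un_even hc, tc_zero, zero_mul]

/-- the Hecke character -/
noncomputable def XT (hp : PF pr) (V : Finset ι) : ZI →* ℂ where
  toFun a := (th a : ℂ) * XX hp V a
  map_one' := by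
    rw [th_one, map_one]
    simp
  map_mul' := by
    intro a b
    rw [map_mul]
    by_cases ha : XX hp V a = 0
    · rw [ha]; ring
    · by_cases hb : XX hp V b = 0
      · rw [hb]; ring
      · rw [th_mul (XX_odd hp V ha) (XX_odd hp V hb)]
        push_cast
        ring

lemma XT_apply (hp : PF pr) (V : Finset ι) (a : ZI) : XT hp V a = (th a : ℂ) * XX hp V a := rfl

lemma XT_prim (hp : PF pr) (V : Finset ι) {a : ZI} (ha : prim a) :
    XT hp V a = (th a : ℂ) * (ch pr V a : ℂ) := by
  rw [XT_apply, XX_prim hp V ha]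

lemma th_ne (a : ZI) : (th a : ℂ) ≠ 0 := by
  rcases th_cases a with h | h <;> rw [h] <;> norm_num

/-- the conductor -/
noncomputable def ctd (pr : ι → ZI) (V : Finset ι) : ZI := 4 * DD pr V

lemma two2_dvd_four : two2 ∣ (4 : ZI) := ⟨⟨1, -1⟩, by decide⟩

lemma cop_ctd (V : Finset ι) (a : ZI) : IsCoprime a (ctd pr V) ↔ IsCoprime a (cnd pr V) := by
  unfold ctd cnd
  constructor
  · intro h
    exact h.of_isCoprime_of_dvd_right (mul_dvd_mul_right two2_dvd_four _)
  · intro h
    rw [IsCoprime.mul_right_iff] at h
    have h1 : IsCoprime a (two2 ^ 2 * DD pr V) := (h.1.pow_right).mul_right h.2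
    refine h1.of_isCoprime_of_dvd_right (mul_dvd_mul_right ?_ _)
    exact ⟨⟨0, 2⟩, by decide⟩

theorem XT_HC (hp : PF pr) (V : Finset ι) : HC (ctd pr V) (XT hp V) where
  q0 := mul_ne_zero four_ne (DD_ne hp V)
  per := by
    intro a b hab
    have h1 : cnd pr V ∣ a - b := by
      refine dvd_trans ?_ hab
      exact mul_dvd_mul_right two2_dvd_four _
    have h2 : (4 : ZI) ∣ a - b := (dvd_mul_right _ _).trans hab
    obtain ⟨t, ht⟩ := h2
    have e : a = b + 4 * t := by linear_combination ht
    rw [XT_apply, XT_apply, (XX_HC hp V).per a b h1]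
    congr 2
    rw [e, th_four]
  supp := by
    intro a
    rw [cop_ctd, ← (XX_HC hp V).supp a, XT_apply]
    constructor
    · exact fun h => right_ne_zero_of_mul h
    · exact fun h => mul_ne_zero (th_ne a) h
  nrm := by
    intro a ha
    rw [cop_ctd] at ha
    rw [XT_apply, norm_mul, (XX_HC hp V).nrm a ha, mul_one]
    rcases th_cases a with h | h <;> rw [h] <;> simp
  unit := by
    rw [XT_apply, (XX_HC hp V).unit]
    have : th ⟨0, 1⟩ = 1 := by decide
    rw [this]
    simp
  prim := by
    intro d hd hnd
    by_cases hB : ∃ i ∈ V, ¬ pr i ∣ d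
    · obtain ⟨i, hi, hid⟩ := hB
      -- the cofactor
      have hDi : DD pr V = pr i * DD pr (V.erase i) := by
        unfold DD
        exact (Finset.mul_prod_erase V pr hi).symm
      set m := 4 * DD pr (V.erase i) with hm
      have hcop : IsCoprime (pr i) m := by
        rw [hm]
        refine IsCoprime.mul_right ?_ ?_
        · have h4 : (4 : ZI) = 2 * 2 := by decide
          rw [h4]
          have h5 : IsCoprime (pr i) (2 : ZI) :=
            ((hp.pp i).pr.irreducible.coprime_iff_not_dvd).2 (not_dvd_two (hp.pp i))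
          exact h5.mul_right h5
        · unfold DD
          rw [IsCoprime.prod_right_iff]
          intro j hj
          exact (hp.pp i).cop (hp.pp j) fun h => (Finset.mem_erase.1 hj).1 (hp.inj h).symm
      have hdm : d ∣ m := by
        have h1 : d ∣ pr i * m := by
          have e : pr i * m = ctd pr V := by
            unfold ctd
            rw [hDi, hm]
            ring
          rw [e]; exact hd
        have h2 : IsCoprime d (pr i) :=
          (((hp.pp i).pr.irreducible.coprime_iff_not_dvd).2 hid).symm
        exact h2.dvd_of_dvd_mul_left h1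
      obtain ⟨b, hb⟩ := exists_nonres (hp.pp i)
      obtain ⟨x, y, hxy⟩ := hcop
      -- a = 1 mod m, a = b mod pr i
      set a : ZI := x * pr i + b * (y * m) with ha
      have ha1 : m ∣ a - 1 := ⟨b * y - y, by rw [ha]; linear_combination hxy⟩
      have ha2 : pr i ∣ a - b := ⟨x - b * x, by rw [ha]; linear_combination b * hxy⟩
      have ha4 : (4 : ZI) ∣ a - 1 := (dvd_mul_right _ _).trans ha1
      have hpa : prim a := by
        rw [prim_iff_dvd]
        exact two2_dvd_four.trans ha4
      have hth : th a = 1 := by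
        obtain ⟨t, ht⟩ := ha4
        have e : a = 1 + 4 * t := by linear_combination ht
        rw [e, th_four, th_one]
      have hch : ch pr V a = -1 := by
        unfold ch
        rw [← Finset.mul_prod_erase V _ hi, qr_per ha2, hb, Finset.prod_eq_one, mul_one]
        intro j hj
        have h3 : pr j ∣ a - 1 := by
          refine (dvd_DD hj).trans ((dvd_mul_left _ _).trans ha1)
        rw [qr_per h3, qr_one (hp.pp j)]
      refine ⟨a, ?_, hdm.trans ha1, ?_⟩
      · rw [cop_ctd, cop_cnd hp V]
        refine ⟨prim_norm_odd hpa, fun j hj hd' => ?_⟩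
        have : ch pr V a = 0 := Finset.prod_eq_zero hj (qr_zero_iff.2 hd')
        rw [hch] at this
        norm_num at this
      · rw [XT_prim hp V hpa, hch, hth]
        norm_num
    · push Not at hB
      -- d divides `two2 D`
      have hD1 : DD pr V ∣ d := by
        unfold DD
        refine Finset.prod_dvd_of_coprime ?_ hB
        intro i _ j _ hij
        exact (hp.pp i).cop (hp.pp j) fun h => hij (hp.inj h)
      obtain ⟨e, he⟩ := hD1
      have he2 : e ∣ 4 := by
        unfold ctd at hd
        rw [he, mul_comm 4] at hd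
        exact (mul_dvd_mul_iff_left (DD_ne hp V)).1 hd
      have he3 : ¬ (4 : ZI) ∣ e := by
        intro h
        apply hnd
        unfold ctd
        rw [he, mul_comm 4]
        exact mul_dvd_mul_left _ h
      have he4 : e ∣ two2 := by
        have e4 : (4 : ZI) = pi1 ^ 4 * ⟨-1, 0⟩ := by decide
        rw [e4] at he2
        have hu : IsUnit (⟨-1, 0⟩ : ZI) := IsUnit.of_mul_eq_one ⟨-1, 0⟩ (by decide)
        have he5 : e ∣ pi1 ^ 4 := (hu.dvd_mul_right).1 he2
        obtain ⟨k, hk, hk2⟩ := (dvd_prime_pow pi1_prime 4).1 he5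
        have hk3 : k ≠ 4 := by
          rintro rfl
          apply he3
          rw [e4]
          exact (hu.mul_right_dvd).2 hk2.symm.dvd
        have hk4 : pi1 ^ k ∣ pi1 ^ 3 := pow_dvd_pow _ (by omega)
        have h2 : pi1 ^ 3 ∣ two2 := by rw [two2_eq]; exact dvd_mul_right _ _
        exact hk2.dvd.trans (hk4.trans h2)
      have hDp := DD_prim hp V
      set a : ZI := 1 + two2 * DD pr V with ha
      have hpa : prim a := by
        rw [prim_iff_dvd]
        exact ⟨DD pr V, by rw [ha]; ring⟩
      have hch : ch pr V a = 1 := by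
        rw [← ch_one hp V]
        apply ch_per
        rw [ha]
        exact ⟨two2, by ring⟩
      have hth : th a = -1 := by
        have h5 := prim_norm_odd hDp
        have e5 : a.norm = 1 + 4 * ((DD pr V).re - (DD pr V).im) +
            8 * ((DD pr V).re ^ 2 + (DD pr V).im ^ 2) := by
          rw [ha, norm_def']
          simp only [Zsqrtd.re_add, Zsqrtd.im_add, re_mul', im_mul', Zsqrtd.re_one, Zsqrtd.im_one,
            two2]
          ring
        have h6 : ((DD pr V).re - (DD pr V).im) % 2 = 1 := by
          rw [norm_def'] at h5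
          have e0 : ∀ z : ℤ, z ^ 2 % 2 = z % 2 := by
            intro z
            rcases Int.emod_two_eq_zero_or_one z with h | h <;> rw [sq, Int.mul_emod, h] <;> norm_num
          have q1 := e0 (DD pr V).re
          have q2 := e0 (DD pr V).im
          omega
        unfold th
        rw [if_neg (by omega)]
      refine ⟨a, ?_, ?_, ?_⟩
      · rw [cop_ctd, cop_cnd hp V]
        refine ⟨prim_norm_odd hpa, fun j hj hd' => ?_⟩
        have : ch pr V a = 0 := Finset.prod_eq_zero hj (qr_zero_iff.2 hd')
        rw [hch] at this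
        norm_num at this
      · obtain ⟨f, hf⟩ := he4
        rw [he]
        exact ⟨f, by rw [ha]; linear_combination (DD pr V) * hf⟩
      · rw [XT_prim hp V hpa, hch, hth]
        norm_num

theorem sum_XT (hp : PF pr) (V : Finset ι) {δ : ℝ} (hδ : 0 < δ) :
    ∑' a : ZI, XT hp V a * (starRingEnd ℂ) (fd δ (tc a)) =
      4 * (starRingEnd ℂ) (RS (ct pr V ∅) δ) := by
  classical
  obtain ⟨L, Ω, hGL⟩ := exists_lat
  have H := XT_HC hp V
  have hs : Summable (fun a : ZI => XT hp V a * (starRingEnd ℂ) (fd δ (tc a))) := by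
    refine Summable.of_norm_bounded (summ_tc hGL.lat hδ).norm fun a => ?_
    rw [norm_mul, RCLike.norm_conj]
    exact mul_le_of_le_one_left (norm_nonneg _) (chi_le _ _ H a)
  rw [sum_units hs]
  · congr 1
    unfold RS
    rw [Complex.conj_tsum]
    refine tsum_congr fun a => ?_
    by_cases ha : prim a
    · have h1 : ct pr V ∅ a = (th a : ℂ) * (ch pr V a : ℂ) := by
        unfold ct
        rw [cc_eq ⟨ha, by simp⟩]
      rw [if_pos ha, XT_prim hp V ha, map_mul, h1]
      congr 1
      simp
    · have h1 : ct pr V ∅ a = 0 := by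
        unfold ct
        rw [cc_eq_zero (fun h => ha h.1), mul_zero]
      rw [if_neg ha, h1, zero_mul, map_zero]
  · intro a
    have h1 : XT hp V im1 = -I := H.unit
    rw [map_mul, h1, tc_mul, tc_im1, fd_mul]
    have h2 : Complex.normSq I = 1 := by simp
    rw [h2, mul_one, map_mul, map_inv₀, Complex.conj_I]
    have h3 : (-I : ℂ)⁻¹ = I := by
      rw [inv_neg, Complex.inv_I, neg_neg]
    rw [h3]
    linear_combination (-(XT hp V a * (starRingEnd ℂ) (fd δ (tc a)))) * I_sq
  · intro a ha
    rw [XT_apply, XX_apply, un_even ha, tc_zero]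
    simp

/-- the central value is the conjugate of the limit -/
theorem LT_eq (hp : PF pr) (V : Finset ι) {l : ℂ} (hl : Tendsto (RS (ct pr V ∅)) (𝓝[>] 0) (𝓝 l)) :
    LH (XT hp V) (1 / 2) = (starRingEnd ℂ) l := by
  have h1 := center (XT_HC hp V)
  have h2 : Tendsto (fun δ : ℝ => 4 * (starRingEnd ℂ) (RS (ct pr V ∅) (Real.pi * δ))) (𝓝[>] 0)
      (𝓝 (4 * (starRingEnd ℂ) l)) := by
    have h3 := tendsto_scale hl Real.pi_pos
    have h4 := (Complex.continuous_conj.tendsto l).comp h3
    have h5 := h4.const_mul 4
    refine h5.congr fun δ => ?_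
    simp only [Function.comp_apply]
    rw [mul_comm δ]
  have h3 := tendsto_nhds_unique h1 (h2.congr' (by
    filter_upwards [self_mem_nhdsWithin] with δ (hδ : 0 < δ)
    exact (sum_XT hp V (by positivity)).symm))
  exact mul_left_cancel₀ (by norm_num) h3

variable [Fintype ι]

/-- **non-vanishing of the central value** -/
theorem LT_ne (hp : PF pr) {V : Finset ι}
    (hker : ∀ z : ι → ZMod 2, (∀ v ∈ V, ∑ u ∈ V, em pr u v * (z u + z v) + wt pr v * z v = 0) →
      ∀ v ∈ V, z v = 0) : LH (XT hp V) (1 / 2) ≠ 0 := by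
  obtain ⟨L, Ω, hGL⟩ := exists_lat
  obtain ⟨l, hl⟩ := exists_lim_ct (ι := ι) hGL hp V
  rw [LT_eq hp V hl]
  exact (map_ne_zero _).2 (lim_ct_ne hGL hp hker hl)

end Run7.h26.CN
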