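import Pool.Agent.Y699.Pd
import Pool.Agent.Run7.h26.CN.Hc
import Pool.Agent.W164.RC.Gp
import Pool.Agent.Y692.QN.Zi
import Pool.Agent.Y691.QT.ApTw

/-!
The L-function of `y² = x³ - (2m)² x` over the rational field.
-/

set_option autoImplicit false
set_option linter.unusedSectionVars false

namespace Run7.h26.CN

open Pool.Agent.Y699
open H385 (ZI RQ im1 nrm)
open Pool.Agent.W164.RC (tc_mul tc_star two2 prim_iff_dvd unit_norm unit_cases Ip Ip_one Ip_three Ip_spec dg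
  local_poly local_two ep_hecke)
open Pool.Agent.H304R2.EC.A1 (prim prim_mul prim_cancel prim_one prim_norm_odd prim_star eq_one_of_prim
  norm_def' re_mul' im_mul' eq_of_dvd prim_ne_zero exists_prim)
open Pool.Agent.H304R3.HK (tc HC LH bH psi psi_apply uh_psi goodH bb ee UH tc_star_mul tc_ne_zero)
open Pool.Agent.H304R2.EC.Pts (SS SS_scale aE_eq_SS qc)
open Pool.Agent.H304R2.EC (PS PS_split an aE aE_eq)

variable {ι : Type} [DecidableEq ι] {pr : ι → ZI}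

lemma norm_tc_eq (z : ZI) : ‖tc z‖ = (nrm z : ℝ) ^ (1 / 2 : ℝ) := by
  have h : ‖tc z‖ ^ 2 = (nrm z : ℝ) := by
    rw [tc_star_mul, ← nrm_cast]
    simp
  rw [← h, ← Real.rpow_natCast, ← Real.rpow_mul (norm_nonneg _)]
  norm_num

lemma psi_term (χ : ZI →* ℂ) {p : Nat.Primes} {z : ZI} (hz : z ∈ Ip p) (s : ℂ) :
    psi χ z * (((p : ℕ) : ℂ) ^ (-(s - 1 / 2))) ^ dg p =
      χ z * tc z * (((p : ℕ) : ℂ) ^ (-s)) ^ dg p := by
  obtain ⟨-, hzp, h3, -⟩ := Ip_spec p.2 hz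
  rw [psi_apply _ hzp.ne_zero]
  have hp0 : ((p : ℕ) : ℂ) ≠ 0 := Nat.cast_ne_zero.2 p.2.ne_zero
  have hpr : (0 : ℝ) < (p : ℕ) := by exact_mod_cast p.2.pos
  have e1 : ((p : ℕ) : ℂ) ^ (-(s - 1 / 2)) = ((p : ℕ) : ℂ) ^ (-s) * ((p : ℕ) : ℂ) ^ ((1 / 2 : ℂ)) := by
    rw [← Complex.cpow_add _ _ hp0]
    congr 1
    ring
  have e2 : ((‖tc z‖ : ℝ) : ℂ) = (((p : ℕ) : ℂ) ^ ((1 / 2 : ℂ))) ^ dg p := by
    have h1 : ‖tc z‖ = (((p : ℕ) : ℝ) ^ (1 / 2 : ℝ)) ^ dg p := by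
      rw [norm_tc_eq, h3]
      push_cast
      rw [← Real.rpow_natCast, ← Real.rpow_mul hpr.le, mul_comm, Real.rpow_mul hpr.le,
        Real.rpow_natCast]
    rw [h1, Complex.ofReal_pow, Complex.ofReal_cpow hpr.le]
    push_cast
    rfl
  have e3 : ((‖tc z‖ : ℝ) : ℂ) ≠ 0 := by
    rw [Complex.ofReal_ne_zero, norm_ne_zero_iff]
    exact tc_ne_zero hzp.ne_zero
  rw [e1, mul_pow, ← e2]
  field_simp

lemma qr_prod {π : ZI} (h : PP π) (V : Finset ι) : qr π (DD pr V) = ∏ i ∈ V, qr π (pr i) := by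
  classical
  unfold DD
  induction V using Finset.induction_on with
  | empty => rw [Finset.prod_empty, Finset.prod_empty, qr_one h]
  | insert a s ha ih => rw [Finset.prod_insert ha, Finset.prod_insert ha, qr_mul h, ih]

lemma XX_qr (hp : PF pr) (V : Finset ι) {π : ZI} (h : PP π) : XX hp V π = (qr π (DD pr V) : ℂ) := by
  rw [XX_prim hp V h.prm, qr_prod h]
  unfold ch
  congr 1
  exact Finset.prod_congr rfl fun i _ => qr_rec (hp.pp i) h

lemma XT_qr (hp : PF pr) (V : Finset ι) {π : ZI} (h : PP π) :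
    XT hp V π = (th π : ℂ) * (qr π (DD pr V) : ℂ) := by
  rw [XT_apply, XX_qr hp V h]

/-- the point count of `y² = x³ - (2m)² x` at the primes `1` modulo `4` -/
lemma card_pts (m : ℕ) (p : ℕ) [Fact p.Prime] (h2 : p ≠ 2) (hm : ¬ p ∣ m) :
    (Nat.card {q : ZMod p × ZMod p //
      q.2 ^ 2 = q.1 ^ 3 + ((-4 * (m : ℤ) ^ 2 : ℤ) : ZMod p) * q.1 + ((0 : ℤ) : ZMod p)} : ℤ) =
      p - legendreSym p (2 * m) * an p := by
  rw [Pool.Agent.Y691.QT.card_eq p h2]
  have ht : ((2 * m : ℤ) : ZMod p) ≠ 0 := by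
    intro h
    rw [ZMod.intCast_zmod_eq_zero_iff_dvd] at h
    have hp : p.Prime := Fact.out
    have h3 : p ∣ 2 * m := by exact_mod_cast h
    rcases (Nat.Prime.dvd_mul hp).1 h3 with h | h
    · exact h2 ((Nat.prime_dvd_prime_iff_eq hp Nat.prime_two).1 h)
    · exact hm h
  have h1 : ∑ x : ZMod p, quadraticChar (ZMod p)
      (x ^ 3 + ((-4 * (m : ℤ) ^ 2 : ℤ) : ZMod p) * x + ((0 : ℤ) : ZMod p)) =
      SS ((1 : ZMod p) * ((2 * m : ℤ) : ZMod p) ^ 2) := by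
    unfold SS
    refine Finset.sum_congr rfl fun x _ => ?_
    congr 1
    push_cast
    ring
  have h4 : aE p = an p := aE_eq p Fact.out h2
  have h5 : aE p = - SS (1 : ZMod p) := aE_eq_SS h2
  have h6 : SS ((1 : ZMod p) * ((2 * m : ℤ) : ZMod p) ^ 2) = qc p ((2 * m : ℤ) : ZMod p) * SS 1 :=
    SS_scale _ _ ht
  have h7 : legendreSym p (2 * m) = qc p ((2 * m : ℤ) : ZMod p) := rfl
  rw [h1, h6, h7, ← h4, h5]
  ring

open Classical in
/-- the local factor -/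
noncomputable def loc (m : ℕ) (p : ℕ) (s : ℂ) : ℂ :=
  if ¬ p ∣ 2 * m then
    (1 - ((p : ℂ) - (Nat.card {q : ZMod p × ZMod p //
      q.2 ^ 2 = q.1 ^ 3 + ((-4 * (m : ℤ) ^ 2 : ℤ) : ZMod p) * q.1 + ((0 : ℤ) : ZMod p)} : ℂ))
      * (p : ℂ) ^ (-s) + (p : ℂ) ^ (1 - 2 * s))⁻¹
  else 1

lemma leg_two_one {p : ℕ} [Fact p.Prime] (h1 : p % 4 = 1) :
    legendreSym p 2 = if p % 8 = 1 then 1 else -1 := by
  have h2 : p ≠ 2 := by rintro rfl; omega
  rw [legendreSym.at_two h2, ZMod.χ₈_nat_eq_if_mod_eight]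
  rw [if_neg (by omega)]
  by_cases h : p % 8 = 1
  · rw [if_pos (Or.inl h), if_pos h]
  · rw [if_neg (by omega), if_neg h]

lemma th_norm {z : ZI} {p : ℕ} (hn : z.norm = p) : th z = if p % 8 = 1 then 1 else -1 := by
  unfold th
  rw [hn]
  by_cases h : p % 8 = 1
  · rw [if_pos h, if_pos (by omega)]
  · rw [if_neg h, if_neg (by omega)]

lemma XT_zero_of_dvd (hp : PF pr) (V : Finset ι) {z : ZI} (h : PP z) (hz : z ∣ DD pr V) :
    XT hp V z = 0 := by
  rw [XT_qr hp V h, qr_zero_iff.2 hz]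
  simp

lemma XT_pi1 (hp : PF pr) (V : Finset ι) : XT hp V ⟨1, 1⟩ = 0 := by
  rw [XT_apply]
  have : XX hp V ⟨1, 1⟩ = 0 := by
    rw [XX_apply, un_even (by decide)]
    unfold tc
    simp
  rw [this, mul_zero]

lemma X_sq (p : Nat.Primes) (s : ℂ) :
    ((p : ℕ) : ℂ) ^ (1 - 2 * s) = ((p : ℕ) : ℂ) * (((p : ℕ) : ℂ) ^ (-s)) ^ 2 := by
  have hp0 : ((p : ℕ) : ℂ) ≠ 0 := Nat.cast_ne_zero.2 p.2.ne_zero
  rw [← Complex.cpow_nat_mul]
  have e : (1 : ℂ) - 2 * s = 1 + ((2 : ℕ) : ℂ) * (-s) := by push_cast; ring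
  rw [e, Complex.cpow_add _ _ hp0, Complex.cpow_one]

theorem local_eq (hp : PF pr) (V : Finset ι) (m : ℕ) (hm : DD pr V = (m : ZI)) (p : Nat.Primes) (s : ℂ) :
    (1 - bb (psi (XT hp V)) (p : ℕ) * (((p : ℕ) : ℂ) ^ (-(s - 1 / 2))) +
      ee (psi (XT hp V)) (p : ℕ) * (((p : ℕ) : ℂ) ^ (-(s - 1 / 2))) ^ 2)⁻¹ = loc m p s := by
  have H := XT_HC hp V
  have hpp := p.2
  have : Fact (p : ℕ).Prime := ⟨hpp⟩
  by_cases h2 : (p : ℕ) = 2
  · rw [h2, local_two (uh_psi _ _ H), psi_apply _ (by decide), XT_pi1, zero_mul, zero_mul]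
    unfold loc
    rw [if_neg (by rw [not_not]; exact dvd_mul_right _ _)]
    simp
  rw [local_poly (uh_psi _ _ H) hpp h2]
  have h4 : (p : ℕ) % 4 = 1 ∨ (p : ℕ) % 4 = 3 := by
    rcases hpp.eq_two_or_odd with h | h
    · exact absurd h h2
    · omega
  have hPP : ∀ z ∈ Ip (p : ℕ), PP z := fun z hz => ⟨(Ip_spec hpp hz).2.1, (Ip_spec hpp hz).1⟩
  have hterm : ∏ z ∈ Ip (p : ℕ), (1 - psi (XT hp V) z * (((p : ℕ) : ℂ) ^ (-(s - 1 / 2))) ^ dg (p : ℕ)) =
      ∏ z ∈ Ip (p : ℕ), (1 - XT hp V z * tc z * (((p : ℕ) : ℂ) ^ (-s)) ^ dg (p : ℕ)) :=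
    Finset.prod_congr rfl fun z hz => by rw [psi_term (XT hp V) hz]
  rw [hterm]
  by_cases hmp : (p : ℕ) ∣ m
  · unfold loc
    rw [if_neg (by rw [not_not]; exact hmp.mul_left 2)]
    rw [Finset.prod_eq_one, inv_one]
    intro z hz
    have h5 : z ∣ DD pr V := by
      rw [hm]
      refine (Ip_spec hpp hz).2.2.2.trans ?_
      exact_mod_cast Nat.cast_dvd_cast (α := ZI) hmp
    rw [XT_zero_of_dvd hp V (hPP z hz) h5]
    simp
  have hpm : ¬ (p : ℕ) ∣ 2 * m := by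
    intro h
    rcases (Nat.Prime.dvd_mul hpp).1 h with h | h
    · exact h2 ((Nat.prime_dvd_prime_iff_eq hpp Nat.prime_two).1 h)
    · exact hmp h
  unfold loc
  rw [if_pos hpm, X_sq]
  congr 1
  rcases h4 with h1 | h3
  · obtain ⟨x, hne, hx, hxx, hn, hI⟩ := Ip_one hpp h1
    have hd : dg (p : ℕ) = 1 := by unfold dg; rw [if_pos h1]
    have hxn : x.norm = (p : ℕ) := by rw [← nrm_cast, hn]
    have hxs : (star x).norm = (p : ℕ) := by
      rw [Zsqrtd.norm_conj]; exact hxn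
    have hPx : PP x := hPP x (by rw [hI]; simp)
    have hPs : PP (star x) := hPP _ (by rw [hI]; simp)
    have hcast : (m : ZI) = ((m : ℤ) : ZI) := by push_cast; rfl
    have hval : ∀ z : ZI, PP z → z.norm = (p : ℕ) → XT hp V z = (legendreSym p (2 * m) : ℂ) := by
      intro z hz hzn
      rw [XT_qr hp V hz, hm, hcast, qr_int hz hzn, th_norm hzn, legendreSym.mul, leg_two_one h1]
      push_cast
      ring
    rw [hI, Finset.prod_pair hne, hd, pow_one, hval x hPx hxn, hval _ hPs hxs]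
    have hc := card_pts m p h2 hmp
    have hc' : (Nat.card {q : ZMod p × ZMod p //
      q.2 ^ 2 = q.1 ^ 3 + ((-4 * (m : ℤ) ^ 2 : ℤ) : ZMod p) * q.1 + ((0 : ℤ) : ZMod p)} : ℂ) =
        p - (legendreSym p (2 * m) : ℂ) * (an p : ℂ) := by
      exact_mod_cast congrArg (Int.cast : ℤ → ℂ) hc
    rw [hc']
    have han : tc x + tc (star x) = (an p : ℂ) := by
      obtain ⟨a, b, hb0, hb, hab, hn', hPS⟩ := PS_split p hpp h1
      have hx' : x = ⟨a, b⟩ ∨ x = ⟨a, -b⟩ := by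
        have hxI : x ∈ Ip (p : ℕ) := by rw [hI]; simp
        unfold Ip at hxI
        rw [if_pos h1, hPS, Finset.image_insert, Finset.image_singleton, Finset.mem_insert,
          Finset.mem_singleton] at hxI
        exact hxI
      have ha : an p = 2 * a := by
        unfold an
        rw [hPS, Finset.sum_pair]
        · ring
        · intro heq
          rw [Prod.mk.injEq] at heq
          omega
      have hre : x.re = a := by rcases hx' with rfl | rfl <;> rfl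
      rw [ha]
      unfold tc
      simp only [Zsqrtd.re_star, Zsqrtd.im_star, hre]
      push_cast
      ring
    have hpr : tc x * tc (star x) = ((p : ℕ) : ℂ) := by
      rw [← tc_mul, hxx]
      unfold tc
      simp
    have hl : (legendreSym p (2 * m) : ℂ) * (legendreSym p (2 * m) : ℂ) = 1 := by
      have h0 : ((2 * m : ℤ) : ZMod p) ≠ 0 := by
        intro h
        rw [ZMod.intCast_zmod_eq_zero_iff_dvd] at h
        exact hpm (by exact_mod_cast h)
      have := legendreSym.sq_one (p : ℕ) h0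
      rw [sq] at this
      exact_mod_cast congrArg (Int.cast : ℤ → ℂ) this
    set e := (legendreSym p (2 * m) : ℂ) with he
    set X := ((p : ℕ) : ℂ) ^ (-s) with hX
    linear_combination (-e * X) * han + (X ^ 2 * e * e) * hpr + (((p : ℕ) : ℂ) * X ^ 2) * hl
  · have hd : dg (p : ℕ) = 2 := by unfold dg; rw [if_neg (by omega)]
    rw [Ip_three h3, Finset.prod_singleton, hd]
    have hP : PP (-((p : ℕ) : ZI)) := hPP _ (by rw [Ip_three h3]; simp)
    have hn : (-((p : ℕ) : ZI)).norm = ((p : ℕ) : ℤ) ^ 2 := by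
      rw [norm_def']
      simp only [Zsqrtd.re_neg, Zsqrtd.im_neg, Zsqrtd.re_natCast, Zsqrtd.im_natCast]
      ring
    have hth : th (-((p : ℕ) : ZI)) = 1 := by
      unfold th
      rw [hn, if_pos]
      have h8 : (p : ℕ) % 8 = 3 ∨ (p : ℕ) % 8 = 7 := by omega
      have e : (((p : ℕ) : ℤ) ^ 2) % 8 = ((((p : ℕ) : ℤ) % 8) ^ 2) % 8 := by
        rw [pow_two, Int.mul_emod, ← pow_two]
      rw [e]
      rcases h8 with h | h
      · have : ((p : ℕ) : ℤ) % 8 = 3 := by omega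
        rw [this]; norm_num
      · have : ((p : ℕ) : ℤ) % 8 = 7 := by omega
        rw [this]; norm_num
    have hq : qr (-((p : ℕ) : ZI)) (DD pr V) = 1 := by
      rw [hm, qr_inert hP h3 rfl]
      have e : ((m : ZI)).norm = (m : ℤ) ^ 2 := by
        rw [norm_def']
        simp only [Zsqrtd.re_natCast, Zsqrtd.im_natCast]
        ring
      rw [e]
      refine legendreSym.sq_one' (p : ℕ) ?_
      intro h
      rw [ZMod.intCast_zmod_eq_zero_iff_dvd] at h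
      exact hmp (by exact_mod_cast h)
    rw [XT_qr hp V hP, hth, hq]
    have htc : tc (-((p : ℕ) : ZI)) = -((p : ℕ) : ℂ) := by
      unfold tc
      simp
    rw [htc]
    have hap := Pool.Agent.Y692.QN.ap_three (-4 * (m : ℤ) ^ 2) hpp h3
    unfold Pool.Agent.Y19.QT.ap at hap
    have hap' : (((p : ℕ) : ℂ) - (Nat.card {q : ZMod p × ZMod p //
      q.2 ^ 2 = q.1 ^ 3 + ((-4 * (m : ℤ) ^ 2 : ℤ) : ZMod p) * q.1 + ((0 : ℤ) : ZMod p)} : ℂ)) = 0 := by
      exact_mod_cast congrArg (Int.cast : ℤ → ℂ) hap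
    rw [hap']
    push_cast
    ring

theorem hasProd_primes (hp : PF pr) (V : Finset ι) (m : ℕ) (hm : DD pr V = (m : ZI)) {s : ℂ}
    (hs : (3 : ℝ) / 2 < s.re) :
    HasProd (fun p : Nat.Primes => loc m p s) (LH (XT hp V) (s - 1 / 2)) := by
  obtain ⟨A, hA, hgood⟩ := goodH
  have H := XT_HC hp V
  have hre : 1 < (s - 1 / 2).re := by
    have : (s - 1 / 2).re = s.re - 1 / 2 := by simp
    rw [this]; linarith
  have h1 := ep_hecke (uh_psi _ _ H) (s - 1 / 2) _ ((hgood _ _ H).2.1 _ hre)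
  exact h1.congr_fun fun p => (local_eq hp V m hm p s).symm

theorem isLFun (hp : PF pr) (V : Finset ι) (m : ℕ) (hm : DD pr V = (m : ZI)) :
    Pool.Agent.Y19.QT.IsLFun (-4 * (m : ℤ) ^ 2) 0 (fun s => LH (XT hp V) (s - 1 / 2)) := by
  constructor
  · obtain ⟨A, hA, hgood⟩ := goodH
    have h1 := (hgood _ _ (XT_HC hp V)).1
    exact h1.comp (differentiable_id.sub_const _)
  · intro s hs
    have h1 := hasProd_primes hp V m hm hs
    have h2 : HasProd (fun p : Nat.Primes => (fun p : ℕ => loc m p s) (p : ℕ))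
        (LH (XT hp V) (s - 1 / 2)) := h1
    have h3 : HasProd ({p : ℕ | p.Prime}.mulIndicator (fun p : ℕ => loc m p s))
        (LH (XT hp V) (s - 1 / 2)) :=
      (hasProd_subtype_iff_mulIndicator (s := {p : ℕ | p.Prime})
        (f := fun p : ℕ => loc m p s)).1 h2
    refine h3.congr_fun fun p => ?_
    by_cases hpp : p.Prime
    · rw [Set.mulIndicator_of_mem (show p ∈ {p : ℕ | p.Prime} from hpp)]
      have e : (p : ℤ) ∣ 2 * (-4 * (-4 * (m : ℤ) ^ 2) ^ 3 - 27 * 0 ^ 2) ↔ p ∣ 2 * m := by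
        have e1 : (2 * (-4 * (-4 * (m : ℤ) ^ 2) ^ 3 - 27 * 0 ^ 2) : ℤ) = ((2 ^ 9 * m ^ 6 : ℕ) : ℤ) := by
          push_cast; ring
        rw [e1, Int.natCast_dvd_natCast, Nat.Prime.dvd_mul hpp, Nat.Prime.dvd_mul hpp]
        constructor
        · rintro (h | h)
          · exact Or.inl (hpp.dvd_of_dvd_pow h)
          · exact Or.inr (hpp.dvd_of_dvd_pow h)
        · rintro (h | h)
          · exact Or.inl (dvd_pow h (by norm_num))
          · exact Or.inr (dvd_pow h (by norm_num))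
      unfold loc
      by_cases hb : p ∣ 2 * m
      · have a1 : ¬ (p.Prime ∧ ¬ (p : ℤ) ∣ 2 * (-4 * (-4 * (m : ℤ) ^ 2) ^ 3 - 27 * 0 ^ 2)) := by
          rintro ⟨-, h⟩
          exact h (e.2 hb)
        rw [if_neg a1, if_neg (not_not.2 hb)]
      · have a1 : p.Prime ∧ ¬ (p : ℤ) ∣ 2 * (-4 * (-4 * (m : ℤ) ^ 2) ^ 3 - 27 * 0 ^ 2) :=
          ⟨hpp, fun h => hb (e.1 h)⟩
        rw [if_pos a1, if_pos hb]
    · rw [Set.mulIndicator_of_notMem (show p ∉ {p : ℕ | p.Prime} from hpp), if_neg]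
      exact fun h => hpp h.1

end Run7.h26.CN
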