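import Pool.Agent.Y703.CQ.Stm
import Pool.Agent.Run7.h26.CN.Lq

/-!
The kernel of the matrix of Legendre symbols and the kernel of the matrix over the Gaussian field.
-/

set_option autoImplicit false
set_option linter.unusedSectionVars false

namespace Run7.h26.CN

open Pool.Agent.Y699
open H385 (ZI RQ im1 nrm)
open Pool.Agent.W164.RC (Ip Ip_one Ip_spec dg)
open Pool.Agent.H304R2.EC.A1 (prim prim_star norm_def' re_mul' im_mul')
open Pool.Agent.H304R3.HK (LH)
open Pool.Agent.Y703.CQ (nr)

lemma qr_star (π a : ZI) : qr (star π) (star a) = qr π a := by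
  have h1 : ∀ x y : ZI, star x ∣ star y ↔ x ∣ y := by
    intro x y
    constructor
    · rintro ⟨c, hc⟩
      refine ⟨star c, ?_⟩
      have := congrArg star hc
      rw [star_star, star_mul, star_star] at this
      rw [this]; ring
    · rintro ⟨c, hc⟩
      exact ⟨star c, by rw [hc, star_mul]; ring⟩
  unfold qr
  have h2 : (∃ b, star π ∣ star a - b ^ 2) ↔ ∃ b, π ∣ a - b ^ 2 := by
    constructor
    · rintro ⟨b, hb⟩
      refine ⟨star b, ?_⟩
      rw [← h1, star_sub, star_pow, star_star]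
      exact hb
    · rintro ⟨b, hb⟩
      refine ⟨star b, ?_⟩
      rw [← star_pow, ← star_sub, h1]
      exact hb
  by_cases hA : π ∣ a
  · rw [if_pos hA, if_pos ((h1 _ _).2 hA)]
  · rw [if_neg hA, if_neg (fun h => hA ((h1 _ _).1 h))]
    by_cases hB : ∃ b, π ∣ a - b ^ 2
    · rw [if_pos hB, if_pos (h2.2 hB)]
    · rw [if_neg hB, if_neg (fun h => hB (h2.1 h))]

/-- a primary prime of norm `p` -/
lemma exists_g {p : ℕ} (hp : p.Prime) (h1 : p % 4 = 1) :
    ∃ x : ZI, PP x ∧ PP (star x) ∧ x ≠ star x ∧ x * star x = (p : ZI) ∧ x.norm = (p : ℤ) := by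
  obtain ⟨x, hne, hx, hxx, hn, hI⟩ := Ip_one hp h1
  have hPP : ∀ z ∈ Ip p, PP z := fun z hz => ⟨(Ip_spec hp hz).2.1, (Ip_spec hp hz).1⟩
  exact ⟨x, hPP x (by rw [hI]; simp), hPP _ (by rw [hI]; simp), hne, hxx, by rw [← nrm_cast, hn]⟩

section

variable (m : ℕ) (h1 : ∀ p ∈ m.primeFactors, p % 4 = 1)

/-- the chosen primary prime -/
noncomputable def gg (p : {p : ℕ // p ∈ m.primeFactors}) : ZI :=
  (exists_g (Nat.prime_of_mem_primeFactors p.2) (h1 p.1 p.2)).choose

lemma gg_spec (p : {p : ℕ // p ∈ m.primeFactors}) :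
    PP (gg m h1 p) ∧ PP (star (gg m h1 p)) ∧ gg m h1 p ≠ star (gg m h1 p) ∧
      gg m h1 p * star (gg m h1 p) = ((p : ℕ) : ZI) ∧ (gg m h1 p).norm = ((p : ℕ) : ℤ) :=
  (exists_g (Nat.prime_of_mem_primeFactors p.2) (h1 p.1 p.2)).choose_spec

/-- the primary primes dividing `m` -/
noncomputable def prm (v : {p : ℕ // p ∈ m.primeFactors} × Bool) : ZI :=
  if v.2 then gg m h1 v.1 else star (gg m h1 v.1)

lemma prm_t (p : {p : ℕ // p ∈ m.primeFactors}) : prm m h1 (p, true) = gg m h1 p := rfl
lemma prm_f (p : {p : ℕ // p ∈ m.primeFactors}) : prm m h1 (p, false) = star (gg m h1 p) := rfl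

lemma prm_norm (v : {p : ℕ // p ∈ m.primeFactors} × Bool) : (prm m h1 v).norm = ((v.1 : ℕ) : ℤ) := by
  obtain ⟨p, b⟩ := v
  cases b
  · rw [prm_f, Zsqrtd.norm_conj]
    exact (gg_spec m h1 p).2.2.2.2
  · rw [prm_t]
    exact (gg_spec m h1 p).2.2.2.2

lemma prm_PF : PF (prm m h1) where
  pp := by
    rintro ⟨p, b⟩
    cases b
    · exact (gg_spec m h1 p).2.1
    · exact (gg_spec m h1 p).1
  inj := by
    rintro ⟨p, b⟩ ⟨q, c⟩ h
    have h2 := congrArg Zsqrtd.norm h
    rw [prm_norm, prm_norm] at h2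
    have h3 : p = q := Subtype.ext (by exact_mod_cast h2)
    subst h3
    have h4 := (gg_spec m h1 p).2.2.1
    cases b <;> cases c
    · rfl
    · exact absurd h.symm h4
    · exact absurd h h4
    · rfl

lemma prm_DD (hm : Squarefree m) : DD (prm m h1) Finset.univ = (m : ZI) := by
  unfold DD
  rw [Fintype.prod_prod_type]
  have e : ∀ p : {p : ℕ // p ∈ m.primeFactors}, ∏ b : Bool, prm m h1 (p, b) = ((p : ℕ) : ZI) := by
    intro p
    rw [Fintype.prod_bool, prm_t, prm_f]
    exact (gg_spec m h1 p).2.2.2.1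
  rw [Finset.prod_congr rfl fun p _ => e p]
  rw [Finset.prod_coe_sort m.primeFactors (fun p : ℕ => ((p : ℕ) : ZI))]
  conv_rhs => rw [← Nat.prod_primeFactors_of_squarefree hm]
  push_cast
  rfl

lemma em_star (u v : {p : ℕ // p ∈ m.primeFactors}) (b c : Bool) :
    Pool.Agent.Y699.em (prm m h1) (u, !b) (v, !c) = Pool.Agent.Y699.em (prm m h1) (u, b) (v, c) := by
  have h : ∀ (w : {p : ℕ // p ∈ m.primeFactors}) (d : Bool), prm m h1 (w, !d) = star (prm m h1 (w, d)) := by
    intro w d
    cases d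
    · show prm m h1 (w, true) = star (prm m h1 (w, false))
      rw [prm_t, prm_f, star_star]
    · rfl
  unfold Pool.Agent.Y699.em
  rw [h, h, qr_star]

lemma em_add {p q : {p : ℕ // p ∈ m.primeFactors}} (hpq : p ≠ q) (b : Bool) :
    Pool.Agent.Y699.em (prm m h1) (q, true) (p, b) + Pool.Agent.Y699.em (prm m h1) (q, false) (p, b) = nr p q := by
  have hp := Nat.prime_of_mem_primeFactors p.2
  have hq := Nat.prime_of_mem_primeFactors q.2
  have : Fact (p : ℕ).Prime := ⟨hp⟩
  have hP := (prm_PF m h1).pp (p, b)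
  have hn := prm_norm m h1 (p, b)
  have h2 : qr (prm m h1 (p, b)) (prm m h1 (q, true)) * qr (prm m h1 (p, b)) (prm m h1 (q, false)) =
      legendreSym p q := by
    rw [← qr_mul hP, prm_t, prm_f, (gg_spec m h1 q).2.2.2.1, ← qr_int hP hn]
    push_cast
    rfl
  have h3 : ((q : ℕ) : ZMod (p : ℕ)) ≠ 0 := by
    rw [Ne, ZMod.natCast_eq_zero_iff]
    intro h
    exact hpq (Subtype.ext ((Nat.prime_dvd_prime_iff_eq hp hq).1 h))
  have hnd : ∀ c, ¬ prm m h1 (p, b) ∣ prm m h1 (q, c) := by
    intro c h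
    have := hP.eq_of_dvd ((prm_PF m h1).pp (q, c)) h
    have := (prm_PF m h1).inj this
    rw [Prod.mk.injEq] at this
    exact hpq this.1
  have h4 : legendreSym p q = 1 ↔ IsSquare ((q : ℕ) : ZMod (p : ℕ)) := by
    rw [legendreSym.eq_one_iff (p : ℕ) (a := ((q : ℕ) : ℤ)) (by exact_mod_cast h3)]
    rw [Int.cast_natCast]
  unfold Pool.Agent.Y699.em nr
  rcases qr_cases (hnd true) with e1 | e1 <;> rcases qr_cases (hnd false) with e2 | e2 <;>
    rw [e1, e2] at h2 <;> rw [e1, e2]
  · rw [if_neg (by norm_num), if_pos (h4.1 (by rw [← h2]; norm_num))]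
    decide
  · rw [if_neg (by norm_num), if_pos rfl, if_neg (fun h => by rw [h4.2 h] at h2; norm_num at h2)]
    decide
  · rw [if_pos rfl, if_neg (by norm_num), if_neg (fun h => by rw [h4.2 h] at h2; norm_num at h2)]
    decide
  · rw [if_pos rfl, if_pos (h4.1 (by rw [← h2]; norm_num))]
    decide

lemma em_conj (p : {p : ℕ // p ∈ m.primeFactors}) :
    Pool.Agent.Y699.em (prm m h1) (p, false) (p, true) = if (p : ℕ) % 8 = 5 then 1 else 0 := by
  have hp := Nat.prime_of_mem_primeFactors p.2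
  have : Fact (p : ℕ).Prime := ⟨hp⟩
  have hP := (prm_PF m h1).pp (p, true)
  have hn := prm_norm m h1 (p, true)
  have h14 := h1 p.1 p.2
  have h2 : qr (prm m h1 (p, true)) (prm m h1 (p, false)) = legendreSym p 2 := by
    rw [qr_deg1 hP hn]
    set x := prm m h1 (p, true) with hx
    have e1 : prm m h1 (p, false) = star x := rfl
    rw [e1, Zsqrtd.re_star, Zsqrtd.im_star]
    have e2 : x.re ^ 2 + x.im ^ 2 = ((p : ℕ) : ℤ) := by rw [← hn, norm_def']
    have e3 : (((x.re * x.re + x.im * -x.im : ℤ)) : ZMod (p : ℕ)) = ((x.re ^ 2 * 2 : ℤ) : ZMod (p : ℕ)) := by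
      have : x.re * x.re + x.im * -x.im = x.re ^ 2 * 2 - ((p : ℕ) : ℤ) := by rw [← e2]; ring
      rw [this]
      push_cast
      rw [ZMod.natCast_self]
      ring
    have e4 : legendreSym p (x.re * x.re + x.im * -x.im) = legendreSym p (x.re ^ 2 * 2) := by
      unfold legendreSym
      rw [e3]
    rw [e4, legendreSym.mul]
    have e5 : ((x.re : ℤ) : ZMod (p : ℕ)) ≠ 0 := by
      intro h
      rw [ZMod.intCast_zmod_eq_zero_iff_dvd] at h
      obtain ⟨c, hc⟩ := h
      have h6 : x.re % 2 = 1 := re_odd hP.prm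
      have hc0 : c ≠ 0 := by
        rintro rfl
        rw [mul_zero] at hc
        omega
      have hp2 : (2 : ℤ) ≤ (p : ℕ) := by exact_mod_cast hp.two_le
      have h7 : ((p : ℕ) : ℤ) ^ 2 ≤ x.re ^ 2 := by
        rw [hc, mul_pow]
        have : 1 ≤ c ^ 2 := by
          have := sq_nonneg c
          have h8 : c ^ 2 ≠ 0 := pow_ne_zero 2 hc0
          omega
        nlinarith [sq_nonneg ((p : ℕ) : ℤ)]
      nlinarith [sq_nonneg x.im]
    have e6 : legendreSym p (x.re ^ 2) = 1 := legendreSym.sq_one' (p : ℕ) e5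
    rw [e6, one_mul]
  unfold Pool.Agent.Y699.em
  rw [h2, leg_two_one h14]
  by_cases h : (p : ℕ) % 8 = 1
  · rw [if_pos h, if_neg (by norm_num), if_neg (by omega)]
  · rw [if_neg h, if_pos rfl, if_pos (by omega)]

lemma wt_prm (v : {p : ℕ // p ∈ m.primeFactors} × Bool) :
    wt (prm m h1) v = if (v.1 : ℕ) % 8 = 5 then 1 else 0 := by
  unfold wt
  rw [prm_norm]
  by_cases h : (v.1 : ℕ) % 8 = 5
  · rw [if_pos h, if_pos (by omega)]
  · rw [if_neg h, if_neg (by omega)]

/-- **the bridge** -/
theorem bridge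
    (hker : ∀ x : ℕ → ZMod 2, (∀ p ∈ m.primeFactors, ∑ q ∈ m.primeFactors, nr p q * (x q + x p) +
      (if p % 8 = 5 then 1 else 0) * x p = 0) → ∀ p ∈ m.primeFactors, x p = 0)
    (z : {p : ℕ // p ∈ m.primeFactors} × Bool → ZMod 2)
    (hz : ∀ v ∈ (Finset.univ : Finset ({p : ℕ // p ∈ m.primeFactors} × Bool)),
      ∑ u ∈ Finset.univ, Pool.Agent.Y699.em (prm m h1) u v * (z u + z v) + wt (prm m h1) v * z v = 0) :
    ∀ v ∈ (Finset.univ : Finset ({p : ℕ // p ∈ m.primeFactors} × Bool)), z v = 0 := by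
  have two : ∀ a : ZMod 2, a + a = 0 := by decide
  -- the kernel over the subtype
  have hker' : ∀ s : {p : ℕ // p ∈ m.primeFactors} → ZMod 2,
      (∀ p : {p : ℕ // p ∈ m.primeFactors},
        ∑ q : {p : ℕ // p ∈ m.primeFactors}, nr (p : ℕ) (q : ℕ) * (s q + s p) +
        (if (p : ℕ) % 8 = 5 then 1 else 0) * s p = 0) → ∀ p, s p = 0 := by
    intro s hs p
    set x : ℕ → ZMod 2 := fun n => if h : n ∈ m.primeFactors then s ⟨n, h⟩ else 0 with hx
    have hxs : ∀ q : {p : ℕ // p ∈ m.primeFactors}, x q = s q := by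
      intro q
      rw [hx]
      simp only [q.2, dif_pos]
    have := hker x (by
      intro p hp
      have h2 := hs ⟨p, hp⟩
      rw [← Finset.sum_coe_sort m.primeFactors (fun q => nr p q * (x q + x p))]
      have h3 : x p = s ⟨p, hp⟩ := hxs ⟨p, hp⟩
      rw [h3]
      rw [Finset.sum_congr rfl fun q _ => by rw [hxs q]]
      exact h2) p p.2
    rw [← hxs p]
    exact this
  have hz' : ∀ (p : {p : ℕ // p ∈ m.primeFactors}) (b : Bool),
      ∑ q : {p : ℕ // p ∈ m.primeFactors},
        (Pool.Agent.Y699.em (prm m h1) (q, true) (p, b) * (z (q, true) + z (p, b)) +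
          Pool.Agent.Y699.em (prm m h1) (q, false) (p, b) * (z (q, false) + z (p, b))) +
        (if (p : ℕ) % 8 = 5 then 1 else 0) * z (p, b) = 0 := by
    intro p b
    have h := hz (p, b) (Finset.mem_univ _)
    rw [Fintype.sum_prod_type, wt_prm] at h
    rw [Finset.sum_congr rfl fun q _ => Fintype.sum_bool _] at h
    exact h
  -- the sum of the two coordinates
  have hs : ∀ p, z (p, true) + z (p, false) = 0 := by
    refine hker' (fun p => z (p, true) + z (p, false)) fun p => ?_
    have ht := hz' p true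
    have hf := hz' p false
    have key : ∀ q : {p : ℕ // p ∈ m.primeFactors},
        nr (p : ℕ) (q : ℕ) * ((z (q, true) + z (q, false)) + (z (p, true) + z (p, false))) =
        (Pool.Agent.Y699.em (prm m h1) (q, true) (p, true) * (z (q, true) + z (p, true)) +
          Pool.Agent.Y699.em (prm m h1) (q, false) (p, true) * (z (q, false) + z (p, true))) +
        (Pool.Agent.Y699.em (prm m h1) (q, true) (p, false) * (z (q, true) + z (p, false)) +
          Pool.Agent.Y699.em (prm m h1) (q, false) (p, false) * (z (q, false) + z (p, false))) := by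
      intro q
      have e1 : Pool.Agent.Y699.em (prm m h1) (q, false) (p, false) = Pool.Agent.Y699.em (prm m h1) (q, true) (p, true) :=
        em_star m h1 q p true true
      have e2 : Pool.Agent.Y699.em (prm m h1) (q, true) (p, false) = Pool.Agent.Y699.em (prm m h1) (q, false) (p, true) :=
        em_star m h1 q p false true
      rw [e1, e2]
      by_cases hpq : p = q
      · subst hpq
        rw [em_self (prm_PF m h1)]
        generalize Pool.Agent.Y699.em (prm m h1) (p, false) (p, true) = a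
        generalize nr (p : ℕ) (p : ℕ) = c
        generalize z (p, true) = x
        generalize z (p, false) = y
        revert a c x y
        decide
      · rw [← em_add m h1 hpq true]
        generalize Pool.Agent.Y699.em (prm m h1) (q, false) (p, true) = a
        generalize Pool.Agent.Y699.em (prm m h1) (q, true) (p, true) = c
        generalize z (p, true) = x
        generalize z (p, false) = y
        generalize z (q, true) = x'
        generalize z (q, false) = y'
        revert a c x y x' y'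
        decide
    rw [Finset.sum_congr rfl fun q _ => key q, Finset.sum_add_distrib]
    have h5 := congrArg₂ (· + ·) ht hf
    simp only [add_zero] at h5
    refine Eq.trans ?_ h5
    ring
  have hzz : ∀ p, z (p, false) = z (p, true) := by
    intro p
    have := hs p
    generalize z (p, true) = x at *
    generalize z (p, false) = y at *
    revert x y
    decide
  have ht : ∀ p, z (p, true) = 0 := by
    refine hker' (fun p => z (p, true)) fun p => ?_
    have ht := hz' p true
    have key : ∀ q : {p : ℕ // p ∈ m.primeFactors},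
        nr (p : ℕ) (q : ℕ) * (z (q, true) + z (p, true)) =
        (Pool.Agent.Y699.em (prm m h1) (q, true) (p, true) * (z (q, true) + z (p, true)) +
          Pool.Agent.Y699.em (prm m h1) (q, false) (p, true) * (z (q, false) + z (p, true))) := by
      intro q
      rw [hzz q]
      by_cases hpq : p = q
      · subst hpq
        rw [em_self (prm_PF m h1), two, mul_zero, mul_zero, mul_zero, add_zero]
      · rw [← em_add m h1 hpq true]
        ring
    rw [Finset.sum_congr rfl fun q _ => key q]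
    exact ht
  rintro ⟨p, b⟩ -
  cases b
  · rw [hzz, ht]
  · exact ht p

end

/-- **the L-function of `y² = x³ - (2m)² x`** -/
theorem Lfun (m : ℕ) (hm : Squarefree m) (h1 : ∀ p ∈ m.primeFactors, p % 4 = 1)
    (hker : ∀ x : ℕ → ZMod 2, (∀ p ∈ m.primeFactors, ∑ q ∈ m.primeFactors, nr p q * (x q + x p) +
      (if p % 8 = 5 then 1 else 0) * x p = 0) → ∀ p ∈ m.primeFactors, x p = 0) :
    ∃ F : ℂ → ℂ, Differentiable ℂ F ∧ F 1 ≠ 0 ∧ Pool.Agent.Y19.QT.IsLFun (-4 * (m : ℤ) ^ 2) 0 F := by
  have hL := isLFun (prm_PF m h1) Finset.univ m (prm_DD m h1 hm)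
  refine ⟨_, hL.1, ?_, hL⟩
  have e : (1 : ℂ) - 1 / 2 = 1 / 2 := by norm_num
  show LH (XT (prm_PF m h1) Finset.univ) (1 - 1 / 2) ≠ 0
  rw [e]
  exact LT_ne (prm_PF m h1) (bridge m h1 hker)

end Run7.h26.CN
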