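import Pool.Agent.Run7.h26.CN.Ku

/-!
The difference of the Eisenstein series at two points which differ by `(1 + i) Ω / 2`: the limit and
its valuation above two.
-/

set_option autoImplicit false
set_option linter.unusedSectionVars false

open Filter Complex
open scoped Topology PeriodPair
open H667R3 hiding sq
open Pool.Agent.TH936.CM Pool.Agent.W192.HK

namespace Run7.h26.CN

open Pool.Agent.Y699
open H385 (ZI RQ im1 nrm)
open Pool.Agent.H304R3.HK (tc)
open Pool.Agent.W164.RC (tc_mul tc_star two2 prim_iff_dvd)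
open Pool.Agent.H304R2.EC.A1 (prim prim_mul prim_cancel prim_one prim_norm_odd prim_star eq_one_of_prim
  norm_def' re_mul' im_mul' eq_of_dvd prim_ne_zero)

variable {L : PeriodPair} {Ω : ℂ} {ι : Type} [DecidableEq ι] {pr : ι → ZI}

/-- the limit of the difference -/
noncomputable def Gt (L : PeriodPair) (Ω : ℂ) (z : ℂ) : ℂ := -(2 * Est L Ω) - Dd L (dz Ω) (z + dz Ω)

lemma two_dz' : 2 * dz Ω = Ω * tc ⟨1, -1⟩ / 2 := by
  rw [two_dz, tc_one, tc_pi1, mul_one, div_eq_mul_inv, inv_one_I]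
  unfold tc
  push_cast
  ring

theorem lim_Gt (h : GLat L Ω) {z : ℂ} (h0 : z ∉ L.lattice) (h1 : z + dz Ω ∉ L.lattice)
    (h2 : z + 2 * dz Ω ∉ L.lattice) :
    Tendsto (fun δ : ℝ => EG Ω δ z - EG Ω δ (z + (1 + I) * Ω / 2)) (𝓝[>] 0) (𝓝 (Gt L Ω z)) := by
  have n1 : dz Ω + (z + dz Ω) ∉ L.lattice := by
    have e : dz Ω + (z + dz Ω) = z + 2 * dz Ω := by ring
    rwa [e]
  have n2 : dz Ω - (z + dz Ω) ∉ L.lattice := by
    intro h'
    apply h0
    have := neg_mem h'
    have e : -(dz Ω - (z + dz Ω)) = z := by ring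
    rwa [e] at this
  have hl := lim_Dd h.lat h.dz_notMem h1 n1 n2
  have hE : Tendsto (fun δ : ℝ => EG Ω δ (dz Ω)) (𝓝[>] 0) (𝓝 (Est L Ω)) := lim_dz h
  have h3 := ((hE.const_mul 2).add hl).neg
  have e0 : -(2 * Est L Ω + Dd L (dz Ω) (z + dz Ω)) = Gt L Ω z := by unfold Gt; ring
  rw [e0] at h3
  refine h3.congr fun δ => ?_
  rw [← EG_eq, ← EG_eq, ← EG_eq]
  have e1 : EG Ω δ (dz Ω + (z + dz Ω)) = EG Ω δ (z + (1 + I) * Ω / 2) := by
    refine EG_per h.lat δ ?_
    refine (mem_lat h.lat).2 ⟨⟨0, -1⟩, ?_⟩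
    have e : dz Ω + (z + dz Ω) - (z + (1 + I) * Ω / 2) = 2 * dz Ω - (1 + I) * Ω / 2 := by ring
    rw [e, two_dz']
    unfold tc
    push_cast
    ring
  have e2 : EG Ω δ (dz Ω - (z + dz Ω)) = -EG Ω δ z := by
    have e : dz Ω - (z + dz Ω) = -z := by ring
    rw [e, EG_neg]
  rw [e1, e2]
  ring

/-- division points of even order are not in the lattice -/
lemma nm4 (h : GLat L Ω) {D r : ZI} (hD : prim D) (hr : r.norm % 2 = 1) (t : ZI) :
    Ω * tc r / 4 + zq Ω D t ∉ L.lattice := by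
  intro h'
  have h1 := lat_mul h.lat D h'
  have h2 : Ω * tc t ∈ L.lattice := (mem_lat h.lat).2 ⟨t, rfl⟩
  have h3 := sub_mem h1 h2
  have hDc := tc_ne (prim_ne_zero hD)
  have e : tc D * (Ω * tc r / 4 + zq Ω D t) - Ω * tc t = Ω * tc (D * r) / tc 4 := by
    unfold zq
    rw [tc_mul, tc_four]
    field_simp
    ring
  rw [e] at h3
  refine div_notMem h.lat four_ne ?_ h3
  intro h4
  have h5 : (D * r).norm % 2 = 1 := by
    have h6 := prim_norm_odd hD
    rw [Zsqrtd.norm_mul, Int.mul_emod, h6, hr]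
    norm_num
  rw [norm_odd_iff] at h5
  exact h5 ((show pi1 ∣ (4 : ZI) from ⟨⟨2, -2⟩, by decide⟩).trans h4)

lemma dz_four : dz Ω = Ω * tc ⟨1, -1⟩ / 4 := by
  have := two_dz' (Ω := Ω)
  linear_combination (1 / 2) * this

section val

variable {Γ : Type*} [LinearOrderedCommGroupWithZero Γ] {v : Valuation ℂ Γ} (h2 : v 2 < 1)
  (h : GLat L Ω)

/-- half the derivative over the abscissa -/
noncomputable def kp (L : PeriodPair) (Ω : ℂ) : ℂ := -(2 * Est L Ω)

include h2 h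

lemma kp_val : v (kp L Ω) = v (1 + I) := by
  have h3 := Est_val h2 h
  have hg := v_pi_ne (v := v)
  unfold kp
  rw [Valuation.map_neg, map_mul, ← v_pi_sq]
  calc v (1 + I) ^ 2 * v (Est L Ω) = v (1 + I) * (v (Est L Ω) * v (1 + I)) := by
        rw [sq, mul_assoc, mul_comm (v (Est L Ω))]
    _ = v (1 + I) := by rw [h3, mul_one]

lemma kp_ne : kp L Ω ≠ 0 := by
  intro h0
  have h1 := kp_val h2 h
  rw [h0, map_zero] at h1
  exact v_pi_ne h1.symm

/-- the quotient -/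
lemma Gt_cg {z : ℂ} (hd : v (℘[L] (z + dz Ω) - ℘[L] (dz Ω)) ^ 2 = v (1 + I) ^ 3) :
    Cg v (Gt L Ω z / kp L Ω) 1 := by
  have hk := kp_ne h2 h
  have hg := v_pi_lt h2
  have hg0 := v_pi_ne (v := v)
  have hx0 := h.x0_ne
  set s := v (℘[L] (z + dz Ω) - ℘[L] (dz Ω)) with hs
  have hs0 : s ≠ 0 := by
    intro h0
    rw [h0] at hd
    have : v (1 + I) ^ 3 = 0 := by rw [← hd]; simp
    exact hg0 (pow_eq_zero_iff (by norm_num) |>.1 this)
  have hsub : ℘[L] (dz Ω) - ℘[L] (z + dz Ω) ≠ 0 := by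
    intro h0
    apply hs0
    rw [hs, v.map_sub_swap, h0, map_zero]
  have e : Gt L Ω z / kp L Ω - 1 = -(2 * ℘[L] (dz Ω)) / (℘[L] (dz Ω) - ℘[L] (z + dz Ω)) := by
    have hE : ℘'[L] (dz Ω) = 2 * ℘[L] (dz Ω) * kp L Ω := by
      unfold kp Est
      field_simp
      ring
    have e1 : Gt L Ω z = kp L Ω - Dd L (dz Ω) (z + dz Ω) := by unfold Gt kp; ring
    rw [e1]
    unfold Dd
    rw [hE]
    field_simp
    ring
  have hlt : v (Gt L Ω z / kp L Ω - 1) < 1 := by
    rw [e, map_div₀, Valuation.map_neg, map_mul, x0_val h2 h, mul_one, ← v.map_sub_swap, ← hs,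
      ← v_pi_sq]
    rw [div_lt_one₀ (zero_lt_iff.2 hs0)]
    by_contra hc
    push Not at hc
    have h7 : s ^ 2 ≤ (v (1 + I) ^ 2) ^ 2 := pow_le_pow_left₀ zero_le hc 2
    rw [hd, ← pow_mul] at h7
    have h8 : v (1 + I) ^ (2 * 2) < v (1 + I) ^ 3 := by
      have e4 : v (1 + I) ^ (2 * 2) = v (1 + I) ^ 3 * v (1 + I) := by
        rw [← pow_succ]
      rw [e4]
      calc v (1 + I) ^ 3 * v (1 + I) < v (1 + I) ^ 3 * 1 :=
            mul_lt_mul_of_pos_left hg (pow_pos (zero_lt_iff.2 hg0) 3)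
        _ = v (1 + I) ^ 3 := mul_one _
    exact absurd h8 (not_lt.2 h7)
  refine ⟨?_, by rw [map_one], hlt⟩
  have e2 : Gt L Ω z / kp L Ω = (Gt L Ω z / kp L Ω - 1) + 1 := by ring
  rw [e2]
  refine (v.map_add _ _).trans (max_le hlt.le ?_)
  rw [map_one]

/-- if the abscissa of `(1 + i) w` is integral, that of `w` is a unit -/
lemma unit_step {w : ℂ} (hw : 2 * w ∉ L.lattice) (hc : v (℘[L] ((1 + I) * w)) ≤ 1) :
    v (℘[L] w) = 1 := by
  obtain ⟨h3, h4⟩ := h.mul_pi hw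
  set a := ℘[L] w
  set b := ℘[L] ((1 + I) * w)
  have ha0 : v a ≠ 0 := (v.ne_zero_iff).2 h4
  have h5 : v (a ^ 2 - 1) = v 2 * v a * v b := by
    rw [← h3, map_mul, map_mul, map_mul, v_I, mul_one]
  rcases lt_trichotomy (v a) 1 with h6 | h6 | h6
  · exfalso
    have h7 : v (a ^ 2 - 1) = 1 := by
      have : v (a ^ 2 - 1) = v 1 := by
        apply Valuation.map_sub_eq_of_lt_right
        rw [map_pow, map_one]
        exact pow_lt_one₀ zero_le h6 (by norm_num)
      rw [this, map_one]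
    rw [h7] at h5
    have h8 : v 2 * v a * v b < 1 := by
      calc v 2 * v a * v b ≤ v 2 * v a * 1 := mul_le_mul_right hc _
        _ = v 2 * v a := mul_one _
        _ ≤ v 2 * 1 := mul_le_mul_right h6.le _
        _ = v 2 := mul_one _
        _ < 1 := h2
    exact absurd h5 h8.ne'
  · exact h6
  · exfalso
    have h7 : v (a ^ 2 - 1) = v a ^ 2 := by
      rw [← map_pow]
      apply Valuation.map_sub_eq_of_lt_left
      rw [map_pow, map_one]
      exact one_lt_pow₀ h6 (by norm_num)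
    rw [h7] at h5
    have h8 : v a = v 2 * v b := by
      have : v a * v a = v a * (v 2 * v b) := by
        rw [← sq, h5]
        rw [mul_comm (v 2) (v a), mul_assoc]
      exact mul_left_cancel₀ ha0 this
    have h9 : v 2 * v b ≤ v 2 * 1 := mul_le_mul_right hc _
    rw [mul_one, ← h8] at h9
    exact absurd (h6.trans_le h9) (not_lt.2 h2.le)

/-- if moreover it is a unit, then `v (x ± 1) = v (1 + i)` -/
lemma sub_step {w : ℂ} (hw : 2 * w ∉ L.lattice) (hc : v (℘[L] ((1 + I) * w)) = 1) :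
    v (℘[L] w - 1) = v (1 + I) ∧ v (℘[L] w + 1) = v (1 + I) := by
  have h1 := unit_step h2 h hw hc.le
  obtain ⟨h3, h4⟩ := h.mul_pi hw
  have h5 := congrArg v h3
  rw [map_mul, map_mul, map_mul, v_I, h1, hc, mul_one, mul_one, mul_one] at h5
  have e : ℘[L] w ^ 2 - 1 = (℘[L] w - 1) * (℘[L] w + 1) := by ring
  rw [e, map_mul, ← v_pi_sq] at h5
  have hg := v_pi_lt h2
  have hg0 := v_pi_ne (v := v)
  set g := v (1 + I)
  set a := v (℘[L] w - 1) with ha
  set b := v (℘[L] w + 1) with hb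
  have hab : a ≤ max b (g ^ 2) := by
    have : ℘[L] w - 1 = (℘[L] w + 1) - 2 := by ring
    rw [ha, this]
    refine (v.map_sub _ _).trans ?_
    rw [v_pi_sq]
  have hba : b ≤ max a (g ^ 2) := by
    have : ℘[L] w + 1 = (℘[L] w - 1) + 2 := by ring
    rw [hb, this]
    refine (v.map_add _ _).trans ?_
    rw [v_pi_sq]
  have hgg : g ^ 2 < g := by
    calc g ^ 2 = g * g := sq g
      _ < g * 1 := mul_lt_mul_of_pos_left hg (zero_lt_iff.2 hg0)
      _ = g := mul_one g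
  have key : ∀ a b : Γ, g ^ 2 = a * b → b ≤ max a (g ^ 2) → ¬ a < g := by
    intro a b hab hba hag
    have h6 : b < g := lt_of_le_of_lt hba (max_lt hag hgg)
    have h7 : a * b < g * g := mul_lt_mul'' hag h6 zero_le zero_le
    rw [← hab, ← sq] at h7
    exact lt_irrefl _ h7
  have k1 := key a b h5 hba
  have k2 := key b a (by rw [mul_comm]; exact h5) hab
  push Not at k1 k2
  have hga : a = g := by
    apply le_antisymm _ k1
    by_contra hc
    push Not at hc
    have h7 : g * g < a * b := mul_lt_mul_of_pos_of_nonneg' hc k2 (zero_lt_iff.2 hg0) zero_le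
    rw [← h5, ← sq] at h7
    exact lt_irrefl _ h7
  refine ⟨hga, ?_⟩
  rw [hga, sq] at h5
  exact (mul_left_cancel₀ hg0 h5).symm

/-- the difference of the abscissas at a point `w` with `℘ ((1 + i)² w)` a unit -/
lemma diff_step {w : ℂ} (hw : 2 * w ∉ L.lattice) (hw1 : 2 * ((1 + I) * w) ∉ L.lattice)
    (hc : v (℘[L] ((1 + I) * ((1 + I) * w))) = 1) :
    v (℘[L] w - ℘[L] (dz Ω)) ^ 2 = v (1 + I) ^ 3 := by
  have h1 := unit_step h2 h hw1 hc.le
  have h3 := unit_step h2 h hw h1.le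
  rw [← map_pow, h.diff_sq hw, map_mul, map_mul, map_mul, v_I, h3, mul_one,
    mul_one, ← v_pi_sq]
  obtain ⟨h4, h5⟩ := sub_step h2 h hw1 hc
  have h6 : v (℘[L] ((1 + I) * w) - ℘[L] (Ω / 2)) = v (1 + I) := by
    rcases sq_eq_one_iff.1 (h.e1_sq) with h7 | h7
    · rw [h7]; exact h4
    · rw [h7, sub_neg_eq_add]; exact h5
  rw [h6]
  exact (pow_succ _ 2).symm

omit h2 in
lemma lat_two {w : ℂ} (hw : (1 + I) ^ 2 * w ∉ L.lattice) : 2 * w ∉ L.lattice := by
  intro h'
  apply hw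
  have h1 := lat_I h.lat h'
  have e : I * (2 * w) = (1 + I) ^ 2 * w := by linear_combination (-w) * I_sq
  rwa [e] at h1

/-- a point of order four plus a nonzero point of odd order -/
lemma diff_OT {z : ℂ} (hz : OT L z) (r : ZI) :
    v (℘[L] (Ω * tc r / 4 + z) - ℘[L] (dz Ω)) ^ 2 = v (1 + I) ^ 3 := by
  set w := Ω * tc r / 4 + z with hw
  have h4 : ∀ k : ℕ, (1 + I) ^ (k + 4) * w - (1 + I) ^ (k + 4) * z ∈ L.lattice := by
    intro k
    have e : (1 + I) ^ (k + 4) * w - (1 + I) ^ (k + 4) * z = Ω * tc (-(pi1 ^ k * r)) := by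
      have h5 : (1 + I) ^ 4 = (-4 : ℂ) := by
        have : (1 + I) ^ 4 = ((1 + I) ^ 2) ^ 2 := by ring
        rw [this]
        have e2 : (1 + I) ^ 2 = 2 * I := by linear_combination I_sq
        rw [e2]
        linear_combination 4 * I_sq
      rw [tc_neg, tc_mul, tc_pow, tc_pi1, hw, pow_add, h5]
      ring
    rw [e]
    exact (mem_lat h.lat).2 ⟨_, rfl⟩
  have hnm : ∀ k : ℕ, (1 + I) ^ k * w ∉ L.lattice := by
    intro k h'
    have h5 : (1 + I) ^ (k + 4) * w ∈ L.lattice := by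
      have h6 := lat_mul h.lat (pi1 ^ 4) h'
      have e : tc (pi1 ^ 4) * ((1 + I) ^ k * w) = (1 + I) ^ (k + 4) * w := by
        rw [tc_pow, tc_pi1, pow_add]; ring
      rwa [e] at h6
    have h7 := sub_mem h5 (h4 k)
    rw [sub_sub_cancel] at h7
    exact (hz.pow h (k + 4)).nm h7
  have htwo : ∀ k : ℕ, 2 * ((1 + I) ^ k * w) ∉ L.lattice := by
    intro k
    apply lat_two h
    have e : (1 + I) ^ 2 * ((1 + I) ^ k * w) = (1 + I) ^ (k + 2) * w := by rw [pow_add]; ring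
    rw [e]
    exact hnm _
  have c4 : v (℘[L] ((1 + I) ^ 4 * w)) ≤ 1 := by
    have e : ℘[L] ((1 + I) ^ 4 * w) = ℘[L] ((1 + I) ^ 4 * z) := by
      have h5 := L.weierstrassP_add_coe ((1 + I) ^ 4 * z) ⟨_, h4 0⟩
      simp only at h5
      rw [← h5]
      congr 1
      ring
    rw [e]
    exact wp_le h2 h (hz.pow h 4)
  have s : ∀ k : ℕ, (1 + I) * ((1 + I) ^ k * w) = (1 + I) ^ (k + 1) * w := by
    intro k; rw [pow_succ]; ring
  have c3 : v (℘[L] ((1 + I) ^ 3 * w)) = 1 := unit_step h2 h (htwo 3) (by rw [s 3]; exact c4)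
  have c2 : v (℘[L] ((1 + I) ^ 2 * w)) = 1 := unit_step h2 h (htwo 2) (by rw [s 2]; exact c3.le)
  refine diff_step h2 h ?_ ?_ ?_
  · have := htwo 0
    rwa [pow_zero, one_mul] at this
  · have := htwo 1
    rwa [pow_one] at this
  · have e : (1 + I) * ((1 + I) * w) = (1 + I) ^ 2 * w := by ring
    rw [e]
    exact c2

/-- the point of order four itself -/
lemma diff_four {z : ℂ} (hz : z ∈ L.lattice) :
    v (℘[L] (Ω * tc ⟨2, -1⟩ / 4 + z) - ℘[L] (dz Ω)) ^ 2 = v (1 + I) ^ 3 := by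
  set w := Ω * tc ⟨2, -1⟩ / 4 + z with hw
  have e2 : tc (2 : ZI) = 2 := by
    have := tc_int 2
    push_cast at this
    exact this
  have key : ∀ a : ZI, (a.re % 2 = 1 ∨ a.im % 2 = 1) → ∀ b ∈ L.lattice, Ω * tc a / 2 + b ∉ L.lattice := by
    intro a ha b hb h'
    have h3 := sub_mem h' hb
    rw [add_sub_cancel_right, ← e2] at h3
    refine div_notMem h.lat (by decide) ?_ h3
    rintro ⟨c, hc⟩
    have r1 := congrArg Zsqrtd.re hc
    have r2 := congrArg Zsqrtd.im hc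
    simp only [Zsqrtd.re_mul, Zsqrtd.im_mul] at r1 r2
    have e1 : (2 : ZI).re = 2 := rfl
    have e2 : (2 : ZI).im = 0 := rfl
    rw [e1, e2] at r1 r2
    omega
  have hz2 : 2 * z ∈ L.lattice := by
    have := lat_mul h.lat 2 hz
    rwa [e2] at this
  have hz3 : 2 * ((1 + I) * z) ∈ L.lattice := by
    have := lat_mul h.lat (2 * pi1) hz
    rw [tc_mul, e2, tc_pi1] at this
    rwa [← mul_assoc]
  refine diff_step h2 h ?_ ?_ ?_
  · have e : 2 * w = Ω * tc ⟨2, -1⟩ / 2 + 2 * z := by rw [hw]; ring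
    rw [e]
    exact key _ (Or.inr (by decide)) _ hz2
  · have e : 2 * ((1 + I) * w) = Ω * tc ⟨3, 1⟩ / 2 + 2 * ((1 + I) * z) := by
      rw [hw]
      unfold tc
      push_cast
      linear_combination (-Ω / 2) * I_sq
    rw [e]
    exact key _ (Or.inl (by decide)) _ hz3
  · have h3 : (1 + I) * ((1 + I) * w) - Ω / 2 ∈ L.lattice := by
      have e : (1 + I) * ((1 + I) * w) - Ω / 2 = Ω * tc ⟨0, 1⟩ + 2 * (I * z) := by
        rw [hw]
        unfold tc
        push_cast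
        linear_combination (Ω * (2 - I) / 4 + z - Ω / 2) * I_sq
      rw [e]
      refine add_mem ((mem_lat h.lat).2 ⟨_, rfl⟩) ?_
      have := lat_I h.lat hz2
      have e3 : I * (2 * z) = 2 * (I * z) := by ring
      rwa [e3] at this
    have h4 : ℘[L] ((1 + I) * ((1 + I) * w)) = ℘[L] (Ω / 2) := by
      have h5 := L.weierstrassP_add_coe (Ω / 2) ⟨_, h3⟩
      simp only at h5
      rw [← h5]
      congr 1
      ring
    rw [h4]
    rcases sq_eq_one_iff.1 (h.e1_sq) with h7 | h7 <;> rw [h7]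
    · rw [map_one]
    · rw [Valuation.map_neg, map_one]

end val

end Run7.h26.CN
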