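import Pool.Agent.Run7.h26.CN.Th

/-!
The regularized sums as sums of Eisenstein series at division points.
-/

set_option autoImplicit false
set_option linter.unusedSectionVars false

open Filter Complex
open scoped Topology PeriodPair
open H667R3 hiding sq
open Pool.Agent.TH936.CM Pool.Agent.W192.HK

namespace Run7.h26.CN

open Pool.Agent.Y699
open H385 (ZI RQ im1 nrm)
open Pool.Agent.H304R3.HK (tc)
open Pool.Agent.W164.RC (tc_mul tc_star two2 prim_iff_dvd)
open Pool.Agent.H304R2.EC.A1 (prim prim_mul prim_cancel prim_one prim_norm_odd prim_star eq_one_of_prim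
  norm_def' re_mul' im_mul' eq_of_dvd prim_ne_zero)

variable {L : PeriodPair} {Ω : ℂ} {ι : Type} [DecidableEq ι] {pr : ι → ZI}

lemma four_ne : (4 : ZI) ≠ 0 := by decide

lemma tc_four : tc (4 : ZI) = 4 := by
  have := tc_int 4
  push_cast at this
  exact this

lemma prim_four {a : ZI} (ha : prim a) (t : ZI) : prim (a + 4 * t) := by
  rw [prim_iff_dvd] at ha ⊢
  have e : a + 4 * t - 1 = (a - 1) + 4 * t := by ring
  rw [e]
  refine dvd_add ha (Dvd.dvd.mul_right ?_ _)
  exact ⟨⟨1, -1⟩, by decide⟩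

lemma th_four (a t : ZI) : th (a + 4 * t) = th a := by
  unfold th
  have e : (a + 4 * t).norm = a.norm + 8 * (a.re * t.re + a.im * t.im + 2 * (t.re ^ 2 + t.im ^ 2)) := by
    rw [norm_def', norm_def', Zsqrtd.re_add, Zsqrtd.im_add, re_mul', im_mul']
    have e1 : (4 : ZI).re = 4 := rfl
    have e2 : (4 : ZI).im = 0 := rfl
    rw [e1, e2]
    ring
  rw [e, Int.add_mul_emod_self_left]

lemma not_dvd_four {π : ZI} (h : PP π) : ¬ π ∣ (2 : ZI) := not_dvd_two h

lemma qr_four {π : ZI} (h : PP π) {a : ZI} (ha : π ∣ a) (t : ZI) : qr π (a + 4 * t) = qr π t := by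
  have h1 : qr π (a + 4 * t) = qr π (2 ^ 2 * t) := by
    apply qr_per
    have e : a + 4 * t - 2 ^ 2 * t = a := by ring
    rw [e]
    exact ha
  rw [h1, qr_mul h, qr_sq' h (not_dvd_two h), one_mul]

lemma kt_shift (hp : PF pr) (V : Finset ι) {u : ZI} (hu : prim u) (t : ZI) :
    kt pr V (DD pr V * u + 4 * t) = (th (DD pr V) : ℂ) * (th u : ℂ) * C1 pr V t := by
  have h1 : prim (DD pr V * u + 4 * t) := prim_four (prim_mul (DD_prim hp V) hu) t
  have h2 : (∀ i ∈ V, qr (pr i) (DD pr V * u + 4 * t) = 1) ↔ ∀ i ∈ V, qr (pr i) t = 1 := by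
    refine forall₂_congr fun i hi => ?_
    rw [qr_four (hp.pp i) ((dvd_DD hi).mul_right _)]
  unfold kt C1
  rw [th_four, th_pm (DD_prim hp V) hu]
  by_cases h : ∀ i ∈ V, qr (pr i) t = 1
  · rw [if_pos ⟨h1, h2.2 h⟩, if_pos h]
    push_cast
    ring
  · rw [if_neg (fun h' => h (h2.1 h'.2)), if_neg h, mul_zero]

lemma C1_norm (V : Finset ι) (t : ZI) : ‖C1 pr V t‖ ≤ 1 := by
  rcases C1_cases (pr := pr) V t with h | ⟨h, -⟩ <;> rw [h] <;> simp

/-- the sum over one class modulo four -/
noncomputable def RU (pr : ι → ZI) (V : Finset ι) (u : ZI) (δ : ℝ) : ℂ :=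
  ∑' t : ZI, C1 pr V t * fd δ (tc (DD pr V * u + 4 * t))

lemma inj_four (a : ZI) : Function.Injective (fun t : ZI => a + 4 * t) := by
  intro x y hxy
  have h1 : a + 4 * x = a + 4 * y := hxy
  have h2 : (4 : ZI) * x = 4 * y := by linear_combination h1
  exact mul_left_cancel₀ four_ne h2

theorem RU_eq (h : IsLat L RG Ω) (hp : PF pr) (V : Finset ι) [Fintype (RQ (DD pr V))] (u : ZI) {δ : ℝ}
    (hδ : 0 < δ) : RU pr V u δ = Ω / (tc (DD pr V) * 4) *
      ∑ q : RQ (DD pr V), C1 pr V q.out *
        EG Ω (δ * Complex.normSq (tc (DD pr V) * 4 / Ω)) (Ω * tc u / 4 + zq Ω (DD pr V) q.out) := by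
  set D := DD pr V with hD
  have hD0 : D ≠ 0 := DD_ne hp V
  have hDc := tc_ne hD0
  have hΩ := h.ne
  have hs1 : Summable (fun t : ZI => C1 pr V t * fd δ (tc (D * u + 4 * t))) := by
    have h1 := (summ_tc h hδ).comp_injective (inj_four (D * u))
    refine Summable.of_norm_bounded h1.norm fun t => ?_
    rw [norm_mul]
    exact mul_le_of_le_one_left (norm_nonneg _) (C1_norm V t)
  set c : ℂ := tc D * 4 / Ω with hc
  have hc0 : c ≠ 0 := div_ne_zero (mul_ne_zero hDc (by norm_num)) hΩ
  have hs2 : Summable (fun p : RQ D × ZI =>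
      C1 pr V (prt' D hD0 p) * fd δ (tc (D * u + 4 * prt' D hD0 p))) :=
    ((prt' D hD0).summable_iff (f := fun t => C1 pr V t * fd δ (tc (D * u + 4 * t)))).2 hs1
  have e1 : RU pr V u δ = ∑' t : ZI, C1 pr V t * fd δ (tc (D * u + 4 * t)) := rfl
  rw [e1, ← (prt' D hD0).tsum_eq, hs2.tsum_prod' (fun q => hs2.prod_factor q), tsum_fintype,
    Finset.mul_sum]
  refine Finset.sum_congr (by ext; simp) fun q _ => ?_
  unfold EG
  rw [← tsum_mul_left, ← tsum_mul_left]
  refine tsum_congr fun b => ?_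
  have e2 : C1 pr V (prt' D hD0 (q, b)) = C1 pr V q.out := by
    apply C1_per
    rw [prt'_apply]
    exact ⟨b, by ring⟩
  have e3 : tc (D * u + 4 * prt' D hD0 (q, b)) =
      c * (Ω * tc u / 4 + zq Ω D q.out + Ω * tc b) := by
    rw [prt'_apply, tc_add, tc_mul, tc_mul, tc_add, tc_mul, tc_four, hc]
    unfold zq
    field_simp
    ring
  rw [e2, e3, fd_mul, hc, inv_div]
  ring

theorem RS_kt (h : IsLat L RG Ω) (hp : PF pr) (V : Finset ι) {δ : ℝ} (hδ : 0 < δ) :
    RS (kt pr V) δ = (th (DD pr V) : ℂ) * (RU pr V 1 δ - RU pr V c5 δ) := by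
  classical
  set D := DD pr V with hD
  have hDp : prim D := DD_prim hp V
  have hs := summ_bd h hδ (kt_bd (pr := pr) V)
  set f1 : ZI → ℂ := fun a => if (4 : ZI) ∣ a - D * 1 then kt pr V a * fd δ (tc a) else 0 with hf1
  set f2 : ZI → ℂ := fun a => if (4 : ZI) ∣ a - D * c5 then kt pr V a * fd δ (tc a) else 0 with hf2
  have hs1 : Summable f1 := by
    refine Summable.of_norm_bounded hs.norm fun a => ?_
    rw [hf1]
    dsimp only
    split_ifs
    · exact le_rfl
    · rw [norm_zero]; exact norm_nonneg _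
  have hs2 : Summable f2 := by
    refine Summable.of_norm_bounded hs.norm fun a => ?_
    rw [hf2]
    dsimp only
    split_ifs
    · exact le_rfl
    · rw [norm_zero]; exact norm_nonneg _
  have e : ∀ a, kt pr V a * fd δ (tc a) = f1 a + f2 a := by
    intro a
    rw [hf1, hf2]
    dsimp only
    by_cases ha : prim a
    · have hex : ¬ ((4 : ZI) ∣ a - D * 1 ∧ (4 : ZI) ∣ a - D * c5) := by
        rintro ⟨h1, h2⟩
        have h3 := dvd_sub h1 h2
        have e1 : a - D * 1 - (a - D * c5) = D * two2 := by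
          have e : c5 = 1 + two2 := by decide
          rw [e]; ring
        rw [e1] at h3
        have h4 : (4 : ZI) ∣ two2 := by
          have hco : IsCoprime (4 : ZI) D := by
            have h5 : IsCoprime D pi1 := prim_cop hDp
            have h6 : IsCoprime (pi1 ^ 4) D := (h5.symm).pow_left
            have e6 : (4 : ZI) = pi1 ^ 4 * (-1) := by decide
            rw [e6]
            refine IsCoprime.mul_left h6 ?_
            exact ⟨-1, 0, by ring⟩
          exact hco.dvd_of_dvd_mul_left h3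
        have h5 : ¬ (4 : ZI) ∣ two2 := by
          rintro ⟨c, hc⟩
          have r1 := congrArg Zsqrtd.re hc
          rw [re_mul'] at r1
          have e1 : (4 : ZI).re = 4 := rfl
          have e2 : (4 : ZI).im = 0 := rfl
          have e3 : two2.re = 2 := rfl
          rw [e1, e2, e3] at r1
          omega
        exact h5 h4
      rcases prim_split hDp ha with h1 | h1
      · have h1' : (4 : ZI) ∣ a - D * 1 := by rwa [mul_one]
        rw [if_pos h1', if_neg (fun h2 => hex ⟨h1', h2⟩), add_zero]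
      · rw [if_pos h1, if_neg (fun h2 => hex ⟨h2, h1⟩), zero_add]
    · have h1 : kt pr V a = 0 := by
        unfold kt
        rw [if_neg (fun h => ha h.1)]
      rw [h1, zero_mul]
      split_ifs <;> simp
  have key : ∀ u : ZI, prim u → ∑' a, (if (4 : ZI) ∣ a - D * u then kt pr V a * fd δ (tc a) else 0) =
      (th D : ℂ) * (th u : ℂ) * RU pr V u δ := by
    intro u hu
    unfold RU
    rw [← tsum_mul_left, ← (inj_four (D * u)).tsum_eq]
    · refine tsum_congr fun t => ?_
      rw [if_pos ⟨t, by ring⟩, kt_shift hp V hu t]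
      ring
    · intro a ha
      rw [Function.mem_support] at ha
      by_contra hc
      apply ha
      rw [if_neg]
      rintro ⟨t, ht⟩
      exact hc ⟨t, by
        show D * u + 4 * t = a
        rw [← ht]; ring⟩
  unfold RS
  rw [tsum_congr e, hs1.tsum_add hs2, hf1, hf2, key 1 prim_one, key c5 prim_c5, th_one, th_c5]
  push_cast
  ring

end Run7.h26.CN
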