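import Pool.Agent.Y699.Chi

/-!
Regularized sums over the Gaussian integers for the quadratic characters times the symbol of `i`
(after `Y699/Reg2`).
-/

set_option autoImplicit false
set_option linter.unusedSectionVars false

open Filter Complex
open scoped Topology PeriodPair
open H667R3 hiding sq
open Pool.Agent.TH936.CM Pool.Agent.W192.HK

namespace Run7.h26.CN

open Pool.Agent.Y699
open H385 (ZI RQ im1 nrm)
open Pool.Agent.H304R3.HK (tc)
open Pool.Agent.W164.RC (tc_mul tc_star two2 prim_iff_dvd)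
open Pool.Agent.H304R2.EC.A1 (prim prim_mul prim_cancel prim_one prim_norm_odd prim_star eq_one_of_prim
  norm_def' re_mul' im_mul' eq_of_dvd prim_ne_zero)

variable {L : PeriodPair} {Ω : ℂ} {ι : Type} [DecidableEq ι] {pr : ι → ZI}

/-- the symbol of `i` -/
def th (a : ZI) : ℤ := if a.norm % 8 = 1 then 1 else -1

lemma th_cases (a : ZI) : th a = 1 ∨ th a = -1 := by
  unfold th
  split_ifs
  · exact Or.inl rfl
  · exact Or.inr rfl

lemma th_sq (a : ZI) : th a * th a = 1 := by
  rcases th_cases a with h | h <;> rw [h] <;> norm_num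

lemma odd_norm8 {a : ZI} (h : a.norm % 2 = 1) : a.norm % 8 = 1 ∨ a.norm % 8 = 5 := by
  rw [norm_def'] at h ⊢
  have h1 : a.re % 8 = 0 ∨ a.re % 8 = 1 ∨ a.re % 8 = 2 ∨ a.re % 8 = 3 ∨ a.re % 8 = 4 ∨ a.re % 8 = 5 ∨
      a.re % 8 = 6 ∨ a.re % 8 = 7 := by omega
  have h2 : a.im % 8 = 0 ∨ a.im % 8 = 1 ∨ a.im % 8 = 2 ∨ a.im % 8 = 3 ∨ a.im % 8 = 4 ∨ a.im % 8 = 5 ∨
      a.im % 8 = 6 ∨ a.im % 8 = 7 := by omega
  have e : (a.re ^ 2 + a.im ^ 2) % 8 = ((a.re % 8) ^ 2 + (a.im % 8) ^ 2) % 8 := by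
    rw [Int.add_emod, pow_two, pow_two, Int.mul_emod, Int.mul_emod a.im, ← Int.add_emod]
    rw [pow_two, pow_two]
  have e2 : (a.re ^ 2 + a.im ^ 2) % 2 = ((a.re ^ 2 + a.im ^ 2) % 8) % 2 := by omega
  rw [e2, e] at h
  rw [e]
  rcases h1 with h1 | h1 | h1 | h1 | h1 | h1 | h1 | h1 <;>
    rcases h2 with h2 | h2 | h2 | h2 | h2 | h2 | h2 | h2 <;> rw [h1, h2] at h ⊢ <;> revert h <;> decide

lemma th_mul {a b : ZI} (ha : a.norm % 2 = 1) (hb : b.norm % 2 = 1) : th (a * b) = th a * th b := by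
  unfold th
  rw [Zsqrtd.norm_mul, Int.mul_emod]
  rcases odd_norm8 ha with h | h <;> rcases odd_norm8 hb with h' | h' <;> rw [h, h'] <;> decide

lemma th_pm {a b : ZI} (ha : prim a) (hb : prim b) : th (a * b) = th a * th b :=
  th_mul (prim_norm_odd ha) (prim_norm_odd hb)

lemma th_one : th 1 = 1 := by decide

/-- the character with the symbol of `i` -/
noncomputable def ct (pr : ι → ZI) (S T : Finset ι) (a : ZI) : ℂ := (th a : ℂ) * cc pr S T a

lemma th_abs (a : ZI) : ‖(th a : ℂ)‖ ≤ 1 := by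
  rcases th_cases a with h | h <;> rw [h] <;> simp

lemma ct_bd (S T : Finset ι) (a : ZI) : ‖ct pr S T a‖ ≤ 1 := by
  unfold ct
  rw [norm_mul]
  exact mul_le_one₀ (th_abs a) (norm_nonneg _) (cc_bd S T a)

lemma cc_eq_zero {S T : Finset ι} {a : ZI} (h : ¬ (prim a ∧ ∀ i ∈ T, ¬ pr i ∣ a)) :
    cc pr S T a = 0 := by
  unfold cc
  rw [if_neg h]

lemma cc_eq {S T : Finset ι} {a : ZI} (h : prim a ∧ ∀ i ∈ T, ¬ pr i ∣ a) :
    cc pr S T a = (ch pr S a : ℂ) := by
  unfold cc
  rw [if_pos h]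

lemma RS_insert (h : IsLat L RG Ω) (hp : PF pr) (S T : Finset ι) (i : ι) (hi : i ∉ T) {δ : ℝ}
    (hδ : 0 < δ) : RS (ct pr S (insert i T)) δ = RS (ct pr S T) δ -
      ((th (pr i) : ℂ) * (ch pr S (pr i) : ℂ)) / tc (pr i) *
        RS (ct pr S T) (δ * Complex.normSq (tc (pr i))) := by
  classical
  have e1 : (fun b => ct pr S T (pr i * b)) =
      fun b => ((th (pr i) : ℂ) * (ch pr S (pr i) : ℂ)) * ct pr S T b := by
    funext b
    unfold ct
    have h1 : (prim (pr i * b) ∧ ∀ j ∈ T, ¬ pr j ∣ pr i * b) ↔ (prim b ∧ ∀ j ∈ T, ¬ pr j ∣ b) := by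
      rw [prim_mul_iff (hp.pp i).prm]
      refine and_congr_right fun _ => forall₂_congr fun j hj => ?_
      rw [hp.dvd_mul (fun h' : i = j => hi (by rw [h']; exact hj))]
    by_cases h2 : prim b ∧ ∀ j ∈ T, ¬ pr j ∣ b
    · rw [cc_eq h2, cc_eq (h1.2 h2), ch_mul hp, th_pm (hp.pp i).prm h2.1]
      push_cast
      ring
    · rw [cc_eq_zero h2, cc_eq_zero (fun h => h2 (h1.1 h)), mul_zero, mul_zero, mul_zero]
  have e2 := RS_dvd (hp.pp i).ne (ct pr S T) δ
  rw [e1] at e2
  have e3 : RS (fun b => ((th (pr i) : ℂ) * (ch pr S (pr i) : ℂ)) * ct pr S T b)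
      (δ * Complex.normSq (tc (pr i))) =
      ((th (pr i) : ℂ) * (ch pr S (pr i) : ℂ)) * RS (ct pr S T) (δ * Complex.normSq (tc (pr i))) := by
    unfold RS
    rw [← tsum_mul_left]
    exact tsum_congr fun b => by ring
  rw [e3] at e2
  have e4 : RS (ct pr S (insert i T)) δ = RS (ct pr S T) δ -
      RS (fun a => if pr i ∣ a then ct pr S T a else 0) δ := by
    have s1 := summ_bd h hδ (ct_bd (pr := pr) S T)
    have s2 := summ_bd h hδ (f := fun a => if pr i ∣ a then ct pr S T a else 0) (C := 1) (by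
      intro a
      split_ifs
      · exact ct_bd S T a
      · simp)
    unfold RS
    rw [← s1.tsum_sub s2]
    refine tsum_congr fun a => ?_
    rw [← sub_mul]
    congr 1
    unfold ct
    by_cases h1 : pr i ∣ a
    · rw [cc_eq_zero (T := insert i T), if_pos h1, sub_self, mul_zero]
      rintro ⟨-, h2⟩
      exact h2 i (Finset.mem_insert_self _ _) h1
    · rw [if_neg h1, sub_zero]
      congr 1
      unfold cc
      refine if_congr (and_congr_right fun _ => ?_) rfl rfl
      constructor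
      · intro h2 j hj
        exact h2 j (Finset.mem_insert_of_mem hj)
      · intro h2 j hj
        rcases Finset.mem_insert.1 hj with rfl | hj
        · exact h1
        · exact h2 j hj
  rw [e4, e2]
  ring

theorem lim_ct (h : IsLat L RG Ω) (hp : PF pr) (S : Finset ι) {l : ℂ}
    (hl : Tendsto (RS (ct pr S ∅)) (𝓝[>] 0) (𝓝 l)) (T : Finset ι) :
    Tendsto (RS (ct pr S T)) (𝓝[>] 0)
      (𝓝 (l * ∏ i ∈ T, (1 - (th (pr i) : ℂ) * (ch pr S (pr i) : ℂ) / tc (pr i)))) := by
  induction T using Finset.induction_on with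
  | empty => rw [Finset.prod_empty, mul_one]; exact hl
  | insert i T hi ih =>
    have hn : 0 < Complex.normSq (tc (pr i)) := Complex.normSq_pos.2 (tc_ne (hp.pp i).ne)
    have h1 := ih.sub ((tendsto_scale ih hn).const_mul
      (((th (pr i) : ℂ) * (ch pr S (pr i) : ℂ)) / tc (pr i)))
    rw [Finset.prod_insert hi]
    have e : l * ∏ i ∈ T, (1 - (th (pr i) : ℂ) * (ch pr S (pr i) : ℂ) / tc (pr i)) -
        ((th (pr i) : ℂ) * (ch pr S (pr i) : ℂ)) /
        tc (pr i) * (l * ∏ i ∈ T, (1 - (th (pr i) : ℂ) * (ch pr S (pr i) : ℂ) / tc (pr i))) =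
        l * ((1 - (th (pr i) : ℂ) * (ch pr S (pr i) : ℂ) / tc (pr i)) *
          ∏ i ∈ T, (1 - (th (pr i) : ℂ) * (ch pr S (pr i) : ℂ) / tc (pr i))) := by ring
    rw [e] at h1
    refine h1.congr' ?_
    filter_upwards [self_mem_nhdsWithin] with δ (hδ : 0 < δ)
    exact (RS_insert h hp S T i hi hδ).symm

open Classical in
/-- the primary elements with trivial symbols, with the symbol of `i` -/
noncomputable def kt (pr : ι → ZI) (V : Finset ι) (a : ZI) : ℂ :=
  if prim a ∧ ∀ i ∈ V, qr (pr i) a = 1 then (th a : ℂ) else 0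

lemma kt_bd (V : Finset ι) (a : ZI) : ‖kt pr V a‖ ≤ 1 := by
  unfold kt
  split_ifs
  · exact th_abs a
  · simp

theorem sum_ct (V : Finset ι) (a : ZI) :
    ∑ S ∈ V.powerset, ct pr S (V \ S) a = 2 ^ V.card * kt pr V a := by
  classical
  by_cases ha : prim a
  · by_cases hc : ∃ i ∈ V, pr i ∣ a
    · obtain ⟨i, hi, hia⟩ := hc
      have h1 : kt pr V a = 0 := by
        unfold kt
        rw [if_neg]
        rintro ⟨-, h2⟩
        have := h2 i hi
        rw [qr_zero_iff.2 hia] at this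
        exact absurd this (by norm_num)
      rw [h1, mul_zero]
      refine Finset.sum_eq_zero fun S _ => ?_
      unfold ct
      by_cases hS : i ∈ S
      · have h2 : ch pr S a = 0 := Finset.prod_eq_zero hS (qr_zero_iff.2 hia)
        unfold cc
        rw [h2]
        simp
      · rw [cc_eq_zero, mul_zero]
        rintro ⟨-, h2⟩
        exact h2 i (Finset.mem_sdiff.2 ⟨hi, hS⟩) hia
    · push Not at hc
      have h1 : ∀ S ∈ V.powerset, ct pr S (V \ S) a =
          (th a : ℂ) * ((∏ i ∈ S, qr (pr i) a : ℤ) : ℂ) := by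
        intro S _
        unfold ct
        rw [cc_eq ⟨ha, fun i hi => hc i (Finset.mem_sdiff.1 hi).1⟩]
        rfl
      rw [Finset.sum_congr rfl h1, ← Finset.mul_sum, ← Int.cast_sum, ← Finset.prod_one_add]
      unfold kt
      have hval : ∀ i ∈ V, qr (pr i) a = 1 ∨ qr (pr i) a = -1 := fun i hi => qr_cases (hc i hi)
      by_cases hall : ∀ i ∈ V, qr (pr i) a = 1
      · rw [if_pos ⟨ha, hall⟩]
        have : ∏ i ∈ V, (1 + qr (pr i) a) = 2 ^ V.card := by
          rw [← Finset.prod_const]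
          refine Finset.prod_congr rfl fun i hi => ?_
          rw [hall i hi]
          norm_num
        rw [this]
        push_cast
        ring
      · rw [if_neg (fun h => hall h.2), mul_zero]
        push Not at hall
        obtain ⟨i, hi, hne⟩ := hall
        rw [Finset.prod_eq_zero hi]
        · simp
        · rw [(hval i hi).resolve_left hne]
          norm_num
  · unfold kt ct
    rw [if_neg (fun h => ha h.1), mul_zero]
    refine Finset.sum_eq_zero fun S _ => ?_
    rw [cc_eq_zero (fun h => ha h.1), mul_zero]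

/-- the class `3 + 2i` -/
def c5 : ZI := ⟨3, 2⟩

lemma prim_c5 : prim c5 := by
  unfold c5 prim
  decide

lemma th_c5 : th c5 = -1 := by decide

/-- the two classes modulo four -/
lemma prim_split {D a : ZI} (hD : prim D) (ha : prim a) : (4 : ZI) ∣ a - D ∨ (4 : ZI) ∣ a - D * c5 := by
  obtain ⟨x, hx⟩ := (prim_iff_dvd D).1 hD
  obtain ⟨y, hy⟩ := (prim_iff_dvd a).1 ha
  have h1 : a - D = two2 * (y - x) := by linear_combination hy - hx
  have h2 : a - D * c5 = two2 * (y - x) - D * two2 := by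
    have e : c5 = 1 + two2 := by decide
    rw [e]
    linear_combination h1
  have h4 : two2 * pi1 = 4 * im1 := by decide
  have e4 : ∀ t : ZI, pi1 ∣ t → (4 : ZI) ∣ two2 * t := by
    rintro t ⟨s, rfl⟩
    exact ⟨im1 * s, by linear_combination s * h4⟩
  by_cases h : pi1 ∣ y - x
  · left
    rw [h1]
    exact e4 _ h
  · right
    rw [h2]
    have e : two2 * (y - x) - D * two2 = two2 * ((y - x) - D) := by ring
    rw [e]
    apply e4
    have h5 := (norm_odd_iff (y - x)).2 h
    have h6 := prim_norm_odd hD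
    by_contra hc
    have h7 := (norm_odd_iff (y - x - D)).2 hc
    rw [norm_def'] at h5 h6 h7
    rw [Zsqrtd.re_sub, Zsqrtd.im_sub] at h7
    have e0 : ∀ z : ℤ, z ^ 2 % 2 = z % 2 := by
      intro z
      rcases Int.emod_two_eq_zero_or_one z with h | h <;> rw [sq, Int.mul_emod, h] <;> norm_num
    have q1 := e0 (y - x).re
    have q2 := e0 (y - x).im
    have q3 := e0 D.re
    have q4 := e0 D.im
    have q5 := e0 ((y - x).re - D.re)
    have q6 := e0 ((y - x).im - D.im)
    omega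

end Run7.h26.CN
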